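import Pool.Agent.Run7.h745.AH.Iface

/-!
# MP_501a10_an (project of helper745), piece BT: the obstruction is a positive contraction
-/

set_option autoImplicit false
set_option linter.unusedSectionVars false

noncomputable section

namespace Run7.h277.AH.BT

open Filter Topology Matrix Pool.Agent.H188R3 Pool.Agent.TH249
open Run7.h745 Run7.h745.AH
open scoped ComplexOrder

section letters
variable (m : ℕ)

/-- functions of a letter -/
abbrev CL : Type := C(coneSet (m + 1), ℂ)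

/-- the letter as a matrix of functions -/
def zF : Matrix (Fin (2 * (m + 1) + 1)) (Fin (2 * (m + 1) + 1)) (CL m) :=
  Matrix.of fun a b => ⟨fun z => zC m z a b, Complex.continuous_ofReal.comp ((continuous_apply b).comp
    ((continuous_apply a).comp continuous_subtype_val))⟩

/-- the trace of the letter -/
def trz (z : coneSet (m + 1)) : ℝ := ∑ a, z.1 a a

lemma trz_cont : Continuous (trz m) :=
  continuous_finsetSum _ fun a _ => (continuous_apply a).comp ((continuous_apply a).comp continuous_subtype_val)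

lemma trz_eq (z : coneSet (m + 1)) : ∃ ζ : Fin (2 * (m + 1) + 1) → ℝ, ∑ i, ζ i ^ 2 = trz m z ∧
    (∀ i j, z.1 i j = ζ i * ζ j) ∧ 0 ≤ trz m z ∧ trz m z ≤ 1 := by
  obtain ⟨ζ, h1, h2⟩ := z.2
  have h3 : ∑ i, ζ i ^ 2 = trz m z := Finset.sum_congr rfl fun i _ => by rw [h2]; ring
  refine ⟨ζ, h3, h2, ?_, ?_⟩
  · rw [← h3]; exact Finset.sum_nonneg fun i _ => sq_nonneg _
  · rw [← h3]; exact h1

/-- the trace as a function -/
def tF : CL m := ⟨fun z => ((trz m z : ℝ) : ℂ), Complex.continuous_ofReal.comp (trz_cont m)⟩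

/-- `√(1 - τ²)` -/
def sF : CL m := ⟨fun z => ((Real.sqrt (1 - trz m z ^ 2) : ℝ) : ℂ),
  Complex.continuous_ofReal.comp ((continuous_const.sub ((trz_cont m).pow 2)).sqrt)⟩

/-- `τ / (1 + √(1 - τ²))` -/
def gF : CL m := ⟨fun z => ((trz m z / (1 + Real.sqrt (1 - trz m z ^ 2)) : ℝ) : ℂ),
  Complex.continuous_ofReal.comp ((trz_cont m).div (continuous_const.add
    (continuous_const.sub ((trz_cont m).pow 2)).sqrt) fun z =>
      (by have := Real.sqrt_nonneg (1 - trz m z ^ 2); positivity))⟩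

lemma star_of_real (g : coneSet (m + 1) → ℝ) (h : Continuous fun z => ((g z : ℝ) : ℂ)) :
    star (⟨fun z => ((g z : ℝ) : ℂ), h⟩ : CL m) = ⟨fun z => ((g z : ℝ) : ℂ), h⟩ := by
  ext z
  exact Complex.conj_ofReal _

lemma star_tF : star (tF m) = tF m := star_of_real m _ _
lemma star_sF : star (sF m) = sF m := star_of_real m _ _
lemma star_gF : star (gF m) = gF m := star_of_real m _ _

lemma sF_mul : sF m * sF m = 1 - tF m ^ 2 := by
  ext z
  obtain ⟨ζ, h1, h2, h3, h4⟩ := trz_eq m z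
  show ((Real.sqrt (1 - trz m z ^ 2) : ℝ) : ℂ) * ((Real.sqrt (1 - trz m z ^ 2) : ℝ) : ℂ) =
    1 - ((trz m z : ℝ) : ℂ) ^ 2
  rw [← Complex.ofReal_mul, Real.mul_self_sqrt (by nlinarith)]
  push_cast
  ring

lemma gF_eq : gF m + gF m - gF m * gF m * tF m = tF m := by
  ext z
  obtain ⟨ζ, h1, h2, h3, h4⟩ := trz_eq m z
  have h5 := Real.sq_sqrt (show 0 ≤ 1 - trz m z ^ 2 by nlinarith)
  have h6 := Real.sqrt_nonneg (1 - trz m z ^ 2)
  have h7 : trz m z / (1 + Real.sqrt (1 - trz m z ^ 2)) + trz m z / (1 + Real.sqrt (1 - trz m z ^ 2)) -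
      trz m z / (1 + Real.sqrt (1 - trz m z ^ 2)) * (trz m z / (1 + Real.sqrt (1 - trz m z ^ 2))) * trz m z =
      trz m z := by
    set u := Real.sqrt (1 - trz m z ^ 2)
    set τ := trz m z
    have h8 : (1 + u) ≠ 0 := by positivity
    have h9 : τ / (1 + u) + τ / (1 + u) - τ / (1 + u) * (τ / (1 + u)) * τ =
        τ * (2 * (1 + u) - τ ^ 2) / (1 + u) ^ 2 := by
      field_simp
      ring
    rw [h9, div_eq_iff (pow_ne_zero 2 h8)]
    have h10 : τ ^ 2 = 1 - u ^ 2 := by linarith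
    rw [h10]; ring
  show ((trz m z / (1 + Real.sqrt (1 - trz m z ^ 2)) : ℝ) : ℂ) + ((trz m z / (1 + Real.sqrt (1 - trz m z ^ 2)) : ℝ) : ℂ) -
    ((trz m z / (1 + Real.sqrt (1 - trz m z ^ 2)) : ℝ) : ℂ) * ((trz m z / (1 + Real.sqrt (1 - trz m z ^ 2)) : ℝ) : ℂ) *
      ((trz m z : ℝ) : ℂ) = ((trz m z : ℝ) : ℂ)
  rw [← Complex.ofReal_mul, ← Complex.ofReal_mul, ← Complex.ofReal_add, ← Complex.ofReal_sub, h7]

lemma zF_trace : (zF m).trace = tF m := by
  ext z
  rw [Matrix.trace, ContinuousMap.sum_apply]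
  show ∑ a, zC m z a a = ((∑ a, z.1 a a : ℝ) : ℂ)
  push_cast
  rfl

lemma zF_herm : (zF m)ᴴ = zF m := by
  ext a b z
  obtain ⟨ζ, h1, h2, h3, h4⟩ := trz_eq m z
  show (starRingEnd ℂ) (((z.1 b a : ℝ) : ℂ)) = ((z.1 a b : ℝ) : ℂ)
  rw [Complex.conj_ofReal, h2, h2, mul_comm]

lemma zF_sq : zF m * zF m = tF m • zF m := by
  ext a b z
  obtain ⟨ζ, h1, h2, h3, h4⟩ := trz_eq m z
  rw [Matrix.mul_apply, ContinuousMap.sum_apply]
  show ∑ c, ((z.1 a c : ℝ) : ℂ) * ((z.1 c b : ℝ) : ℂ) = ((trz m z : ℝ) : ℂ) * ((z.1 a b : ℝ) : ℂ)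
  rw [← h1, h2 a b]
  push_cast
  rw [Finset.sum_mul]
  refine Finset.sum_congr rfl fun c _ => ?_
  rw [h2, h2]; push_cast; ring

/-- `bC` as a matrix of functions -/
def bF : Matrix (Nb m) (Nb m) (CL m) :=
  Matrix.fromBlocks (Matrix.blockDiagonal fun _ => zF m * zF m) 0 0 (Matrix.diagonal fun _ => 1 - tF m ^ 2)

/-- root of `bF` -/
def rF : Matrix (Nb m) (Nb m) (CL m) :=
  Matrix.fromBlocks (Matrix.blockDiagonal fun _ => zF m) 0 0 (Matrix.diagonal fun _ => sF m)

/-- root of `1 - bF` -/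
def uF : Matrix (Nb m) (Nb m) (CL m) :=
  Matrix.fromBlocks (Matrix.blockDiagonal fun _ => 1 - gF m • zF m) 0 0 (Matrix.diagonal fun _ => tF m)

lemma rF_mul : bF m = (rF m)ᴴ * rF m := by
  have h1 : (rF m)ᴴ = rF m := by
    unfold rF
    rw [fromBlocks_conjTranspose, blockDiagonal_conjTranspose, diagonal_conjTranspose, conjTranspose_zero,
      conjTranspose_zero]
    simp only [zF_herm]
    congr 2
    funext i
    rw [Pi.star_apply, star_sF]
  rw [h1]
  unfold rF bF
  rw [fromBlocks_multiply, diagonal_mul_diagonal, ← blockDiagonal_mul]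
  simp only [sF_mul, Matrix.zero_mul, Matrix.mul_zero, add_zero, zero_add]

lemma uF_mul : 1 - bF m = (uF m)ᴴ * uF m := by
  have h1 : (uF m)ᴴ = uF m := by
    unfold uF
    rw [fromBlocks_conjTranspose, blockDiagonal_conjTranspose, diagonal_conjTranspose, conjTranspose_zero,
      conjTranspose_zero]
    have h2 : (1 - gF m • zF m)ᴴ = 1 - gF m • zF m := by
      rw [conjTranspose_sub, conjTranspose_one, conjTranspose_smul, zF_herm, star_gF]
    simp only [h2]
    congr 2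
    funext i
    rw [Pi.star_apply, star_tF]
  rw [h1]
  have h3 : (1 - gF m • zF m) * (1 - gF m • zF m) = 1 - zF m * zF m := by
    have h4 : (1 - gF m • zF m) * (1 - gF m • zF m) =
        1 - (gF m + gF m) • zF m + (gF m * gF m) • (zF m * zF m) := by
      rw [sub_mul, one_mul, mul_sub, mul_one, smul_mul_smul_comm, add_smul]
      abel
    have h5 : (gF m + gF m) = tF m + gF m * gF m * tF m := by
      have := gF_eq m
      exact sub_eq_iff_eq_add.1 this
    rw [h4, zF_sq, h5, add_smul, smul_smul]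
    abel
  unfold uF bF
  rw [fromBlocks_multiply, diagonal_mul_diagonal, ← blockDiagonal_mul]
  simp only [h3, Matrix.zero_mul, Matrix.mul_zero, add_zero, zero_add]
  generalize zF m * zF m = W
  generalize tF m = T
  ext r r'
  rcases r with ⟨a, p⟩ | p <;> rcases r' with ⟨b, p'⟩ | p'
  · by_cases hp : p = p'
    · subst hp
      by_cases hab : a = b
      · subst hab
        simp [Matrix.blockDiagonal_apply]
      · simp [Matrix.blockDiagonal_apply, Matrix.one_apply_ne, hab]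
    · simp [Matrix.blockDiagonal_apply, Matrix.one_apply_ne, hp]
  · simp
  · simp
  · by_cases hp : p = p'
    · subst hp
      simp [sq]
    · simp [Matrix.one_apply_ne, hp, Matrix.diagonal_apply_ne]

lemma bF_apply (z : coneSet (m + 1)) (r r' : Nb m) : bF m r r' z = bC m z r r' := by
  rcases r with ⟨a, p⟩ | p <;> rcases r' with ⟨b, p'⟩ | p'
  · simp only [bF, bC, fromBlocks_apply₁₁, blockDiagonal_apply]
    by_cases hp : p = p'
    · rw [if_pos hp, if_pos hp, Matrix.mul_apply, Matrix.mul_apply, ContinuousMap.sum_apply]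
      rfl
    · rw [if_neg hp, if_neg hp]; rfl
  · rfl
  · rfl
  · simp only [bF, bC, fromBlocks_apply₂₂, diagonal_apply]
    by_cases hp : p = p'
    · rw [if_pos hp, if_pos hp]
      have h1 : (zC m z).trace = ((trz m z : ℝ) : ℂ) := by
        unfold Matrix.trace trz; push_cast; rfl
      rw [h1]
      rfl
    · rw [if_neg hp, if_neg hp]; rfl

lemma bF_trace : (bF m).trace = (m : CL m) + 1 := by
  have h0 : (bF m).trace = (Matrix.blockDiagonal fun _ : Fin (m + 1) => zF m * zF m).trace +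
      (Matrix.diagonal fun _ : Fin (m + 1) => 1 - tF m ^ 2).trace := by
    unfold Matrix.trace
    rw [Fintype.sum_sum_type]
    rfl
  rw [h0, trace_blockDiagonal, trace_diagonal, zF_sq]
  simp only [trace_smul, zF_trace, Finset.sum_const, Finset.card_univ, Fintype.card_fin, nsmul_eq_mul,
    smul_eq_mul]
  push_cast
  ring

end letters

section homs
variable (s : ℕ → Bool) (n₀ t : ℕ)

/-- diagonal matrices of functions of the letters -/
def dg : (CL (mm t) × ℂ) →⋆ₐ[ℂ] C(X n₀ t, MA (Fin (N s n₀ t)) ℂ) where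
  toFun p := ⟨fun y => MA.of fun P P' => if P = P' then
    (if h : (P : ℕ) < f n₀ then p.1 (y ⟨P, h⟩) else p.2) else 0, by
    have h1 : Continuous fun y : X n₀ t => (show Matrix (Fin (N s n₀ t)) (Fin (N s n₀ t)) ℂ from
        fun P P' => if P = P' then (if h : (P : ℕ) < f n₀ then p.1 (y ⟨P, h⟩) else p.2) else 0) := by
      refine continuous_pi fun P => continuous_pi fun P' => ?_
      split_ifs
      · exact p.1.continuous.comp (continuous_apply _)
      · exact continuous_const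
      · exact continuous_const
    exact h1⟩
  map_one' := by
    ext y P P'
    show (if P = P' then (if h : (P : ℕ) < f n₀ then (1 : ℂ) else 1) else 0) = if P = P' then 1 else 0
    split_ifs <;> rfl
  map_mul' p p' := by
    ext y P P'
    rw [ContinuousMap.mul_apply, MA.en_mul]
    show (if P = P' then (if h : (P : ℕ) < f n₀ then p.1 (y ⟨P, h⟩) * p'.1 (y ⟨P, h⟩) else p.2 * p'.2) else 0) =
      ∑ c, (if P = c then (if h : (P : ℕ) < f n₀ then p.1 (y ⟨P, h⟩) else p.2) else 0) *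
        (if c = P' then (if h : (c : ℕ) < f n₀ then p'.1 (y ⟨c, h⟩) else p'.2) else 0)
    rw [Finset.sum_eq_single P]
    · by_cases hP : P = P'
      · subst hP
        rw [if_pos rfl, if_pos rfl, if_pos rfl]
        split_ifs <;> rfl
      · rw [if_neg hP, if_neg hP, mul_zero]
    · intro c _ hc
      rw [if_neg (Ne.symm hc), zero_mul]
    · intro h; exact absurd (Finset.mem_univ P) h
  map_zero' := by
    ext y P P'
    show (if P = P' then (if h : (P : ℕ) < f n₀ then (0 : ℂ) else 0) else 0) = 0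
    split_ifs <;> rfl
  map_add' p p' := by
    ext y P P'
    show (if P = P' then (if h : (P : ℕ) < f n₀ then p.1 (y ⟨P, h⟩) + p'.1 (y ⟨P, h⟩) else p.2 + p'.2) else 0) =
      (if P = P' then (if h : (P : ℕ) < f n₀ then p.1 (y ⟨P, h⟩) else p.2) else 0) +
        (if P = P' then (if h : (P : ℕ) < f n₀ then p'.1 (y ⟨P, h⟩) else p'.2) else 0)
    split_ifs <;> simp
  commutes' r := by
    ext y P P'
    have h0 : (((algebraMap ℂ C(X n₀ t, MA (Fin (N s n₀ t)) ℂ)) r) y).en P P' = r • (if P = P' then (1 : ℂ) else 0) := by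
      rw [Algebra.algebraMap_eq_smul_one, ContinuousMap.smul_apply, MA.en_smul, ContinuousMap.one_apply, MA.en_one]
    have h1 : ∀ z : coneSet (mm t + 1), (algebraMap ℂ (CL (mm t) × ℂ) r).1 z = r := by
      intro z
      show (algebraMap ℂ (CL (mm t)) r) z = r
      rw [Algebra.algebraMap_eq_smul_one, ContinuousMap.smul_apply, ContinuousMap.one_apply, smul_eq_mul, mul_one]
    rw [h0]
    show (if P = P' then (if h : (P : ℕ) < f n₀ then (algebraMap ℂ (CL (mm t) × ℂ) r).1 (y ⟨P, h⟩) else r) else 0) =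
      r • (if P = P' then (1 : ℂ) else 0)
    simp only [h1]
    split_ifs <;> simp
  map_star' p := by
    ext y P P'
    show (if P = P' then (if h : (P : ℕ) < f n₀ then star (p.1 (y ⟨P, h⟩)) else star p.2) else 0) =
      star (if P' = P then (if h : (P' : ℕ) < f n₀ then p.1 (y ⟨P', h⟩) else p.2) else 0)
    by_cases hP : P = P'
    · subst hP
      rw [if_pos rfl, if_pos rfl]
      split_ifs <;> rfl
    · rw [if_neg hP, if_neg (Ne.symm hP), star_zero]

lemma dg_apply (p : CL (mm t) × ℂ) (y : X n₀ t) (P P' : Fin (N s n₀ t)) :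
    (dg s n₀ t p y).en P P' = if P = P' then
      (if h : (P : ℕ) < f n₀ then p.1 (y ⟨P, h⟩) else p.2) else 0 := rfl

variable {n₀ t}

/-- element with given component `t`, scalar in the others -/
def mkf (ht : t ≤ n₀) (p : C(X n₀ t, MA (Fin (N s n₀ t)) ℂ) × ℂ) : A s n₀ :=
  Pi.single (ft ht) p.1 + (1 - eC s (ft ht)) * algebraMap ℂ (A s n₀) p.2

lemma mkf_same (ht : t ≤ n₀) (p : C(X n₀ t, MA (Fin (N s n₀ t)) ℂ) × ℂ) : mkf s ht p (ft ht) = p.1 := by
  have h1 : mkf s ht p (ft ht) = (Pi.single (ft ht) p.1 : A s n₀) (ft ht) +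
      (1 - (eC s (ft ht) : A s n₀) (ft ht)) * (algebraMap ℂ (A s n₀) p.2) (ft ht) := rfl
  have h2 : (Pi.single (ft ht) p.1 : A s n₀) (ft ht) = p.1 := Pi.single_eq_same _ _
  have h3 : (eC s (ft ht) : A s n₀) (ft ht) = 1 := Pi.single_eq_same _ _
  rw [h1, h2, h3, sub_self, zero_mul, add_zero]

lemma mkf_ne (ht : t ≤ n₀) (p : C(X n₀ t, MA (Fin (N s n₀ t)) ℂ) × ℂ) {t₁ : Fin (n₀ + 1)} (h : t₁ ≠ ft ht) :
    mkf s ht p t₁ = algebraMap ℂ _ p.2 := by
  have h1 : mkf s ht p t₁ = (Pi.single (ft ht) p.1 : A s n₀) t₁ +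
      (1 - (eC s (ft ht) : A s n₀) t₁) * (algebraMap ℂ (A s n₀) p.2) t₁ := rfl
  have h2 : (Pi.single (ft ht) p.1 : A s n₀) t₁ = 0 := Pi.single_eq_of_ne h _
  have h3 : (eC s (ft ht) : A s n₀) t₁ = 0 := Pi.single_eq_of_ne h _
  rw [h1, h2, h3, sub_zero, one_mul, zero_add]
  rfl

/-- `mkf` as a homomorphism -/
def mk (ht : t ≤ n₀) : (C(X n₀ t, MA (Fin (N s n₀ t)) ℂ) × ℂ) →⋆ₐ[ℂ] A s n₀ where
  toFun p := mkf s ht p
  map_one' := by
    funext t₁
    by_cases h : t₁ = ft ht
    · subst h; rw [mkf_same]; rfl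
    · rw [mkf_ne s ht _ h]; exact map_one _
  map_mul' p p' := by
    funext t₁
    have h0 : (mkf s ht p * mkf s ht p') t₁ = mkf s ht p t₁ * mkf s ht p' t₁ := rfl
    rw [h0]
    by_cases h : t₁ = ft ht
    · subst h; rw [mkf_same, mkf_same, mkf_same]; rfl
    · rw [mkf_ne s ht _ h, mkf_ne s ht _ h, mkf_ne s ht _ h]; exact map_mul _ _ _
  map_zero' := by
    funext t₁
    by_cases h : t₁ = ft ht
    · subst h; rw [mkf_same]; rfl
    · rw [mkf_ne s ht _ h]; exact map_zero _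
  map_add' p p' := by
    funext t₁
    have h0 : (mkf s ht p + mkf s ht p') t₁ = mkf s ht p t₁ + mkf s ht p' t₁ := rfl
    rw [h0]
    by_cases h : t₁ = ft ht
    · subst h; rw [mkf_same, mkf_same, mkf_same]; rfl
    · rw [mkf_ne s ht _ h, mkf_ne s ht _ h, mkf_ne s ht _ h]; exact map_add _ _ _
  commutes' r := by
    funext t₁
    by_cases h : t₁ = ft ht
    · subst h; rw [mkf_same]; rfl
    · rw [mkf_ne s ht _ h]; rfl
  map_star' p := by
    funext t₁
    have h0 : (star (mkf s ht p)) t₁ = star (mkf s ht p t₁) := rfl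
    rw [h0]
    by_cases h : t₁ = ft ht
    · subst h; rw [mkf_same, mkf_same]; rfl
    · rw [mkf_ne s ht _ h, mkf_ne s ht _ h]; exact algebraMap_star_comm _

variable {R : Type} [Fintype R] [DecidableEq R]

/-- matrices over level `n₀` given by three matrices -/
def TT (ht : t ≤ n₀) (B1 : Matrix R R (CL (mm t))) (B2 B3 : Matrix R R ℂ) : Matrix R R (A s n₀) :=
  Matrix.of fun r r' => mk s ht (dg s n₀ t (B1 r r', B2 r r'), B3 r r')

lemma TT_mul (ht : t ≤ n₀) (B1 C1 : Matrix R R (CL (mm t))) (B2 B3 C2 C3 : Matrix R R ℂ) :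
    TT s ht B1 B2 B3 * TT s ht C1 C2 C3 = TT s ht (B1 * C1) (B2 * C2) (B3 * C3) := by
  refine Matrix.ext fun r r' => ?_
  rw [Matrix.mul_apply]
  show ∑ c, mk s ht (dg s n₀ t (B1 r c, B2 r c), B3 r c) * mk s ht (dg s n₀ t (C1 c r', C2 c r'), C3 c r') =
    mk s ht (dg s n₀ t ((B1 * C1) r r', (B2 * C2) r r'), (B3 * C3) r r')
  simp only [← map_mul, ← map_sum]
  congr 1
  refine Prod.ext ?_ ?_
  · rw [Prod.fst_sum]
    have h1 : ∀ c, (((dg s n₀ t (B1 r c, B2 r c), B3 r c) : C(X n₀ t, MA (Fin (N s n₀ t)) ℂ) × ℂ) *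
        (dg s n₀ t (C1 c r', C2 c r'), C3 c r')).1 =
        dg s n₀ t (((B1 r c, B2 r c) : CL (mm t) × ℂ) * (C1 c r', C2 c r')) := fun c =>
      (map_mul (dg s n₀ t) _ _).symm
    rw [Finset.sum_congr rfl fun c _ => h1 c, ← map_sum]
    congr 1
    refine Prod.ext ?_ ?_
    · rw [Prod.fst_sum]; rfl
    · rw [Prod.snd_sum]; rfl
  · rw [Prod.snd_sum]; rfl

lemma TT_star (ht : t ≤ n₀) (B1 : Matrix R R (CL (mm t))) (B2 B3 : Matrix R R ℂ) :
    (TT s ht B1 B2 B3)ᴴ = TT s ht B1ᴴ B2ᴴ B3ᴴ := by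
  refine Matrix.ext fun r r' => ?_
  rw [Matrix.conjTranspose_apply]
  show star (mk s ht (dg s n₀ t (B1 r' r, B2 r' r), B3 r' r)) = mk s ht (dg s n₀ t (B1ᴴ r r', B2ᴴ r r'), B3ᴴ r r')
  rw [← map_star]
  congr 1
  refine Prod.ext ?_ rfl
  show star (dg s n₀ t (B1 r' r, B2 r' r)) = _
  rw [← map_star]
  rfl

lemma TT_sub (ht : t ≤ n₀) (B1 C1 : Matrix R R (CL (mm t))) (B2 B3 C2 C3 : Matrix R R ℂ) :
    TT s ht B1 B2 B3 - TT s ht C1 C2 C3 = TT s ht (B1 - C1) (B2 - C2) (B3 - C3) := by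
  refine Matrix.ext fun r r' => ?_
  rw [Matrix.sub_apply]
  show mk s ht (dg s n₀ t (B1 r r', B2 r r'), B3 r r') - mk s ht (dg s n₀ t (C1 r r', C2 r r'), C3 r r') =
    mk s ht (dg s n₀ t (B1 r r' - C1 r r', B2 r r' - C2 r r'), B3 r r' - C3 r r')
  rw [← map_sub]
  congr 1
  refine Prod.ext ?_ rfl
  show dg s n₀ t (B1 r r', B2 r r') - dg s n₀ t (C1 r r', C2 r r') = _
  rw [← map_sub]
  rfl

lemma TT_one (ht : t ≤ n₀) : TT s ht (1 : Matrix R R (CL (mm t))) 1 1 = 1 := by
  refine Matrix.ext fun r r' => ?_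
  show mk s ht (dg s n₀ t ((1 : Matrix R R (CL (mm t))) r r', (1 : Matrix R R ℂ) r r'), (1 : Matrix R R ℂ) r r') = _
  by_cases h : r = r'
  · subst h
    rw [Matrix.one_apply_eq, Matrix.one_apply_eq, Matrix.one_apply_eq]
    have h1 : dg s n₀ t ((1 : CL (mm t)), (1 : ℂ)) = 1 := map_one (dg s n₀ t)
    rw [h1]
    exact map_one (mk s ht)
  · rw [Matrix.one_apply_ne h, Matrix.one_apply_ne h, Matrix.one_apply_ne h]
    have h1 : dg s n₀ t ((0 : CL (mm t)), (0 : ℂ)) = 0 := map_zero (dg s n₀ t)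
    rw [h1]
    exact map_zero (mk s ht)

lemma Bt_eq (ht : t ≤ n₀) : Bt s n₀ t ht = TT s ht (bF (mm t)) 0 1 := by
  refine Matrix.ext fun r r' => ?_
  have h1 : gC s n₀ t r r' = dg s n₀ t (bF (mm t) r r', 0) := by
    ext y P P'
    rw [dg_apply]
    show (if P = P' then (if h : (P : ℕ) < f n₀ then bC (mm t) (y ⟨P, h⟩) r r' else 0) else 0) = _
    simp only [bF_apply]
  have h2 : (if r = r' then 1 else 0 : A s n₀) = algebraMap ℂ (A s n₀) ((1 : Matrix (Nb (mm t)) (Nb (mm t)) ℂ) r r') := by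
    by_cases h : r = r'
    · rw [if_pos h, h, Matrix.one_apply_eq, map_one]
    · rw [if_neg h, Matrix.one_apply_ne h, map_zero]
  show Pi.single (ft ht) (gC s n₀ t r r') + (1 - eC s (ft ht)) * (if r = r' then 1 else 0) = _
  rw [h1, h2]
  rfl

end homs

lemma f_le_k (n : ℕ) : f n ≤ k n := by
  induction n with
  | zero => exact le_rfl
  | succ n ih =>
    rw [f_succ, k_succ]
    exact Nat.mul_le_mul (Nat.le_add_right _ _) ih

lemma f_le_N (s : ℕ → Bool) (n t : ℕ) : f n ≤ N s n t := by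
  refine (f_le_k n).trans ?_
  unfold N
  exact Nat.le_mul_of_pos_left _ (amp_pos s t)

lemma card_lt {M r : ℕ} (hr : r ≤ M) : (Finset.univ.filter fun i : Fin M => (i : ℕ) < r).card = r := by
  have h1 : (Finset.univ.filter fun i : Fin M => (i : ℕ) < r) = Finset.univ.map (Fin.castLEEmb hr) := by
    ext i
    simp only [Finset.mem_filter, Finset.mem_univ, true_and, Finset.mem_map, Fin.castLEEmb_apply]
    constructor
    · intro h; exact ⟨⟨i, h⟩, Fin.ext rfl⟩
    · rintro ⟨j, rfl⟩; exact j.2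
  rw [h1, Finset.card_map, Finset.card_univ, Fintype.card_fin]

/-- **Piece BT.** -/
theorem t_BT : S_BT := by
  intro hnum s n₀ t ht
  refine ⟨⟨TT s ht (rF (mm t)) 0 1, ?_⟩, ⟨TT s ht (uF (mm t)) 1 0, ?_⟩, ?_⟩
  · rw [Bt_eq, TT_star, TT_mul, ← rF_mul]
    simp
  · rw [Bt_eq, ← TT_one s ht, TT_sub, uF_mul, TT_star, TT_mul]
    simp
  · intro t₁ y
    have htr : Matrix.trace (Bt s n₀ t ht) = mk s ht (dg s n₀ t ((mm t : CL (mm t)) + 1, 0),
        (Fintype.card (Nb (mm t)) : ℂ)) := by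
      rw [Bt_eq]
      unfold Matrix.trace
      show ∑ r, mk s ht (dg s n₀ t (bF (mm t) r r, 0), (1 : Matrix (Nb (mm t)) (Nb (mm t)) ℂ) r r) = _
      rw [← map_sum]
      congr 1
      refine Prod.ext ?_ ?_
      · rw [Prod.fst_sum]
        show ∑ r, dg s n₀ t (bF (mm t) r r, 0) = _
        rw [← map_sum]
        congr 1
        refine Prod.ext ?_ ?_
        · rw [Prod.fst_sum]; exact bF_trace (mm t)
        · rw [Prod.snd_sum]; exact Finset.sum_const_zero
      · rw [Prod.snd_sum]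
        show ∑ r, (1 : Matrix (Nb (mm t)) (Nb (mm t)) ℂ) r r = _
        exact Matrix.trace_one
    rw [htr]
    have hM : (0 : ℝ) < (mm t : ℝ) + 1 := by positivity
    have ha : (0 : ℝ) < amp s t := by exact_mod_cast amp_pos s t
    by_cases h : t₁ = ft ht
    · subst h
      have hk : (0 : ℝ) < k n₀ := by exact_mod_cast k_pos n₀
      have hd := (hnum.1 n₀).1
      have h1 : nt (mk s ht (dg s n₀ t ((mm t : CL (mm t)) + 1, 0), (Fintype.card (Nb (mm t)) : ℂ))) (ft ht) y =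
          (((f n₀ : ℝ) * ((mm t : ℝ) + 1) / (amp s t * k n₀) : ℝ) : ℂ) := by
        show ntr ((mkf s ht (dg s n₀ t ((mm t : CL (mm t)) + 1, 0), (Fintype.card (Nb (mm t)) : ℂ)) (ft ht) :
          C(X n₀ t, MA (Fin (N s n₀ t)) ℂ)) y) = _
        rw [mkf_same]
        unfold ntr
        rw [Fintype.card_fin]
        have h2 : ∑ P : Fin (N s n₀ t), (dg s n₀ t ((mm t : CL (mm t)) + 1, 0) y).en P P = f n₀ * ((mm t : ℂ) + 1) := by
          have h3 : ∀ P : Fin (N s n₀ t), (dg s n₀ t ((mm t : CL (mm t)) + 1, 0) y).en P P =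
              if (P : ℕ) < f n₀ then ((mm t : ℂ) + 1) else 0 := by
            intro P
            rw [dg_apply, if_pos rfl]
            by_cases hP : (P : ℕ) < f n₀
            · rw [dif_pos hP, if_pos hP]
              rfl
            · rw [dif_neg hP, if_neg hP]
          simp only [h3]
          rw [Finset.sum_ite, Finset.sum_const_zero, add_zero, Finset.sum_const, nsmul_eq_mul]
          rw [card_lt (f_le_N s n₀ t)]
        show (∑ P : Fin (N s n₀ t), (dg s n₀ t ((mm t : CL (mm t)) + 1, 0) y).en P P) / (N s n₀ t : ℂ) = _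
        rw [h2]
        unfold N
        push_cast
        rfl
      rw [h1, Complex.ofReal_re]
      have h4 : (f n₀ : ℝ) = d n₀ * k n₀ := by unfold d; field_simp
      rw [h4, div_le_div_iff₀ ha (by positivity)]
      have h5 : 3 / 4 * ((mm t : ℝ) + 1) ≤ d n₀ * ((mm t : ℝ) + 1) := mul_le_mul_of_nonneg_right hd hM.le
      calc 3 / 4 * ((mm t : ℝ) + 1) * (amp s t * k n₀) ≤ d n₀ * ((mm t : ℝ) + 1) * (amp s t * k n₀) :=
            mul_le_mul_of_nonneg_right h5 (by positivity)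
        _ = _ := by ring
    · have h1 : nt (mk s ht (dg s n₀ t ((mm t : CL (mm t)) + 1, 0), (Fintype.card (Nb (mm t)) : ℂ))) t₁ y =
          (Fintype.card (Nb (mm t)) : ℂ) := by
        show ntr ((mkf s ht (dg s n₀ t ((mm t : CL (mm t)) + 1, 0), (Fintype.card (Nb (mm t)) : ℂ)) t₁ :
          C(X n₀ t₁, MA (Fin (N s n₀ t₁)) ℂ)) y) = _
        rw [mkf_ne s ht _ h]
        unfold ntr
        have h2 : ∀ P : Fin (N s n₀ t₁), (((algebraMap ℂ C(X n₀ t₁, MA (Fin (N s n₀ t₁)) ℂ))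
            (Fintype.card (Nb (mm t)) : ℂ)) y).en P P = (Fintype.card (Nb (mm t)) : ℂ) := by
          intro P
          rw [Algebra.algebraMap_eq_smul_one, ContinuousMap.smul_apply, MA.en_smul, ContinuousMap.one_apply,
            MA.en_one, if_pos rfl, smul_eq_mul, mul_one]
        have hN : (N s n₀ t₁ : ℂ) ≠ 0 := by exact_mod_cast (N_pos s n₀ t₁).ne'
        simp only [h2]
        rw [Finset.sum_const, Finset.card_univ, Fintype.card_fin, nsmul_eq_mul, mul_div_assoc, mul_div_cancel₀ _ hN]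
      rw [h1, Complex.natCast_re]
      have ha1 : (1 : ℝ) ≤ amp s t := by exact_mod_cast amp_pos s t
      have hc : (mm t : ℝ) + 1 ≤ Fintype.card (Nb (mm t)) := by
        have h3 : mm t + 1 ≤ Fintype.card (Nb (mm t)) := by
          rw [Fintype.card_sum, Fintype.card_fin]
          exact Nat.le_add_left _ _
        exact_mod_cast h3
      rw [div_le_iff₀ ha]
      nlinarith

end Run7.h277.AH.BT
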