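import Pool.Agent.Run7.h277.AH.OBA

/-!
# MP_501a10_an (project of helper745), piece LOW: lower bound for the radius
-/

set_option autoImplicit false
set_option linter.unusedSectionVars false

noncomputable section

namespace Run7.h277.AH.LOW

open Filter Topology Matrix Pool.Agent.H188R3 Pool.Agent.TH249
open Run7.h745 Run7.h745.AH
open scoped ComplexOrder

/-- the value of the traces of `nt` on a scalar multiple of the unit -/
lemma nt_smul_one (s : ℕ → Bool) (n : ℕ) (c : ℝ) (t₁ : Fin (n + 1)) (y : X n t₁) :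
    nt (((c : ℂ) • 1 : A s n)) t₁ y = (c : ℂ) := by
  show ntr (((c : ℂ) • (1 : C(X n t₁, MA (Fin (N s n t₁)) ℂ))) y) = _
  unfold ntr
  have h2 : ∀ P : Fin (N s n t₁), (((c : ℂ) • (1 : C(X n t₁, MA (Fin (N s n t₁)) ℂ))) y).en P P = (c : ℂ) := by
    intro P
    rw [ContinuousMap.smul_apply, MA.en_smul, ContinuousMap.one_apply, MA.en_one, if_pos rfl, smul_eq_mul, mul_one]
  have hN : (N s n t₁ : ℂ) ≠ 0 := by exact_mod_cast (N_pos s n t₁).ne'
  simp only [h2]
  rw [Finset.sum_const, Finset.card_univ, Fintype.card_fin, nsmul_eq_mul, mul_comm, mul_div_assoc, div_self hN, mul_one]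

lemma nt_eC (s : ℕ → Bool) (n : ℕ) (c : ℝ) (t₀ t₁ : Fin (n + 1)) (y : X n t₁) :
    nt (((c : ℂ) • eC s t₀ : A s n)) t₁ y = if t₁ = t₀ then (c : ℂ) else 0 := by
  show ntr (((c : ℂ) • (eC s t₀ : A s n) t₁ : C(X n t₁, MA (Fin (N s n t₁)) ℂ)) y) = _
  by_cases h : t₁ = t₀
  · subst h
    have h3 : (eC s t₁ : A s n) t₁ = 1 := Pi.single_eq_same _ _
    rw [h3, if_pos rfl]
    exact nt_smul_one s n c t₁ y
  · have h3 : (eC s t₀ : A s n) t₁ = 0 := Pi.single_eq_of_ne h _
    rw [h3, if_neg h, smul_zero]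
    unfold ntr
    have h4 : ∀ P : Fin (N s n t₁), ((0 : C(X n t₁, MA (Fin (N s n t₁)) ℂ)) y).en P P = 0 := fun P => rfl
    simp only [h4]
    rw [Finset.sum_const_zero, zero_div]

lemma map_sq {B C : Type} [CStarAlgebra B] [CStarAlgebra C] (g : B →⋆ₐ[ℂ] C) {I K : Type} [Fintype I] [Fintype K]
    (S : Matrix I I B) (e : K ≃ I) :
    ((Sᴴ * S).map g).submatrix e e = (((S.map g).submatrix e e)ᴴ) * ((S.map g).submatrix e e) := by
  refine Matrix.ext fun a b => ?_
  rw [Matrix.submatrix_apply, Matrix.map_apply, Matrix.mul_apply, Matrix.mul_apply, map_sum, ← Equiv.sum_comp e]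
  refine Finset.sum_congr rfl fun c _ => ?_
  rw [map_mul, Matrix.conjTranspose_apply, Matrix.conjTranspose_apply, map_star]
  rfl

lemma mat_map {B C : Type} [CStarAlgebra B] [CStarAlgebra C] (g : B →⋆ₐ[ℂ] C) {I : Type} [Fintype I]
    (S : Matrix I I B) (τ : TracialState C) : τ.mat (S.map g) = τ.val (g (Matrix.trace S)) := by
  unfold TracialState.mat Matrix.trace
  rw [map_sum, map_sum]
  rfl

lemma block_form {B : Type} [CStarAlgebra B] {K : Type} [Fintype K] {l : ℕ} (b : Matrix K K B)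
    (e : Matrix (Fin l) (Fin l) B) (v₁ : Matrix K (Fin 1) B) (v₂ : Matrix (Fin l) (Fin 1) B) :
    (Matrix.fromRows v₁ v₂)ᴴ * Matrix.fromBlocks b 0 0 e * Matrix.fromRows v₁ v₂ =
      v₁ᴴ * b * v₁ + v₂ᴴ * e * v₂ := by
  rw [Matrix.conjTranspose_fromRows_eq_fromCols_conjTranspose, Matrix.mul_assoc, Matrix.fromBlocks_mul_fromRows,
    Matrix.fromCols_mul_fromRows, Matrix.zero_mul, Matrix.zero_mul, add_zero, zero_add, Matrix.mul_assoc,
    Matrix.mul_assoc]

lemma conj_form {B : Type} [CStarAlgebra B] {K I : Type} [Fintype K] [Fintype I] {l : ℕ} (eq : K ≃ I)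
    (b : Matrix I I B) (e e' w : Matrix (Fin l) (Fin l) B) (hw1 : wᴴ * w = e) (hwe : e' * w = w)
    (v : Matrix (K ⊕ Fin l) (Fin 1) B) (hv : vᴴ * Matrix.fromBlocks (b.submatrix eq eq) 0 0 e * v = 1) :
    (Matrix.fromRows ((v.submatrix Sum.inl id).submatrix eq.symm id) (w * v.submatrix Sum.inr id))ᴴ *
      Matrix.fromBlocks b 0 0 e' *
      Matrix.fromRows ((v.submatrix Sum.inl id).submatrix eq.symm id) (w * v.submatrix Sum.inr id) = 1 := by
  have hv0 : v = Matrix.fromRows (v.submatrix Sum.inl id) (v.submatrix Sum.inr id) := by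
    refine Matrix.ext fun a c => ?_
    rcases a with a | a <;> rfl
  rw [hv0, block_form] at hv
  rw [block_form, ← hv]
  congr 1
  · refine Matrix.ext fun a c => ?_
    rw [Matrix.mul_assoc, Matrix.mul_assoc, Matrix.mul_apply, Matrix.mul_apply, ← Equiv.sum_comp eq]
    refine Finset.sum_congr rfl fun x _ => ?_
    rw [Matrix.mul_apply, Matrix.mul_apply, ← Equiv.sum_comp eq]
    simp only [Matrix.conjTranspose_apply, Matrix.submatrix_apply, Equiv.symm_apply_apply, id_eq]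
  · rw [Matrix.conjTranspose_mul, ← hw1]
    calc (v.submatrix Sum.inr id)ᴴ * wᴴ * e' * (w * v.submatrix Sum.inr id)
        = (v.submatrix Sum.inr id)ᴴ * wᴴ * (e' * w) * v.submatrix Sum.inr id := by
          simp only [Matrix.mul_assoc]
      _ = _ := by rw [hwe]; simp only [Matrix.mul_assoc]

/-- **Piece LOW.** -/
theorem t_LOW : S_LOW := by
  intro hnum hmono hbt hoba s L _ j h t τ₀ δ hδ hτ r hr hpr
  classical
  obtain ⟨n₀, ht, hn₀⟩ : ∃ n₀, t ≤ n₀ ∧ (Fintype.card (Nb (mm t)) : ℝ) * (1 / 2) ^ (n₀ + 2) < 1 / 2 := by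
    obtain ⟨a, ha⟩ := exists_pow_lt_of_lt_one (show (0 : ℝ) < 1 / (2 * (Fintype.card (Nb (mm t)) + 1)) by positivity)
      (show (1 / 2 : ℝ) < 1 by norm_num)
    refine ⟨max t a, le_max_left _ _, ?_⟩
    have h1 : ((1 : ℝ) / 2) ^ (max t a + 2) ≤ (1 / 2) ^ a :=
      pow_le_pow_of_le_one (by norm_num) (by norm_num) ((le_max_right t a).trans (Nat.le_add_right _ _))
    have h2 : (0 : ℝ) ≤ Fintype.card (Nb (mm t)) := Nat.cast_nonneg _
    calc (Fintype.card (Nb (mm t)) : ℝ) * (1 / 2) ^ (max t a + 2)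
        ≤ Fintype.card (Nb (mm t)) * (1 / (2 * (Fintype.card (Nb (mm t)) + 1))) :=
          mul_le_mul_of_nonneg_left (h1.trans ha.le) h2
      _ = Fintype.card (Nb (mm t)) / (Fintype.card (Nb (mm t)) + 1) * (1 / 2) := by field_simp
      _ < 1 * (1 / 2) := by
          refine mul_lt_mul_of_pos_right ?_ (by norm_num)
          rw [div_lt_one (by positivity)]
          linarith
      _ = 1 / 2 := one_mul _
  obtain ⟨⟨S, hS⟩, ⟨Z, hZ⟩, htr⟩ := hbt hnum s n₀ t ht
  let eq : Fin (Fintype.card (Nb (mm t))) ≃ Nb (mm t) := (Fintype.equivFin (Nb (mm t))).symm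
  let c : Matrix (Fin (Fintype.card (Nb (mm t)))) (Fin (Fintype.card (Nb (mm t)))) L :=
    ((Bt s n₀ t ht).map (j n₀)).submatrix eq eq
  obtain ⟨l, e, v, he, hτe, hv⟩ := hpr _ c ⟨(S.map (j n₀)).submatrix eq eq, by
      show ((Bt s n₀ t ht).map (j n₀)).submatrix eq eq = _
      rw [hS, map_sq]⟩
    ⟨(Z.map (j n₀)).submatrix eq eq, by
      rw [← map_sq, ← hZ]
      refine Matrix.ext fun a b => ?_
      show (1 : Matrix _ _ L) a b - j n₀ (Bt s n₀ t ht (eq a) (eq b)) =
        j n₀ ((1 : Matrix _ _ (A s n₀)) (eq a) (eq b) - Bt s n₀ t ht (eq a) (eq b))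
      rw [map_sub]
      congr 1
      by_cases hab : a = b
      · subst hab; rw [Matrix.one_apply_eq, Matrix.one_apply_eq, map_one]
      · rw [Matrix.one_apply_ne hab, Matrix.one_apply_ne (fun h0 => hab (eq.injective h0)), map_zero]⟩
    (by
      intro τ
      have h1 : τ.mat c = τ.val (j n₀ (Matrix.trace (Bt s n₀ t ht))) := by
        rw [← mat_map]
        unfold TracialState.mat
        rw [← Equiv.sum_comp eq]
        rfl
      rw [h1]
      refine hr.trans ?_
      have h2 := hmono s L j h τ n₀ (((3 / 4 * ((mm t : ℝ) + 1) / amp s t : ℝ) : ℂ) • 1) (Matrix.trace (Bt s n₀ t ht))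
        (by
          intro t₁ y
          rw [nt_smul_one, Complex.ofReal_re]
          exact htr t₁ y)
      rw [map_smul, map_one, map_smul, τ.map_one, smul_eq_mul, mul_one, Complex.ofReal_re] at h2
      exact h2)
    (δ / 2) (half_pos hδ)
  -- the projection over a finite level
  obtain ⟨N₁, hN₁⟩ := lim1 h e he
  obtain ⟨e', he', w, hw1, hw2⟩ := hN₁ N₁ le_rfl
  have hwe : (e'.map (j N₁)) * w = w := by
    have h1 : IsStarProjection (toMA (e'.map (j N₁))) := isPrj_iff.1 (he'.map (j N₁))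
    have h2 : toMA w * star (toMA w) = toMA (e'.map (j N₁)) := by rw [← hw2]; rfl
    have h3 := mul_pi h1 h2
    exact toMA_inj h3
  have hτe' : (τ₀.val (j N₁ (Matrix.trace e'))).re < δ / 2 := by
    rw [← mat_map, ← hw2, TracialState.mat_mul_comm, hw1]
    exact hτe
  have hv' := conj_form eq ((Bt s n₀ t ht).map (j n₀)) e (e'.map (j N₁)) w hw1 hwe v hv
  obtain ⟨n₁, hn₁⟩ := hoba s L j h t n₀ ht N₁ l e' he' _ hv'
  set n := max n₁ (max N₁ (max n₀ t)) with hn
  have hnn₁ : n₁ ≤ n := le_max_left _ _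
  have hnN₁ : N₁ ≤ n := (le_max_left _ _).trans (le_max_right _ _)
  have hnn₀ : n₀ ≤ n := (le_max_left _ _).trans ((le_max_right _ _).trans (le_max_right _ _))
  have hnt : t ≤ n := ht.trans hnn₀
  have h1 : ∀ y, 1 / 2 ≤ (nt (trans (φ s) N₁ n (Matrix.trace e')) (ft hnt) y).re := by
    intro y
    have h2 := hn₁ n hnt hnn₁ y
    have h3 := (hnum.2.2 n₀ n hnn₀).2
    have h4 : (Fintype.card (Nb (mm t)) : ℝ) * (1 - d n / d n₀) ≤ Fintype.card (Nb (mm t)) * (1 / 2) ^ (n₀ + 2) :=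
      mul_le_mul_of_nonneg_left h3 (Nat.cast_nonneg _)
    linarith
  have h2 : ∀ (t₁ : Fin (n + 1)) (y : X n t₁), 0 ≤ (nt (trans (φ s) N₁ n (Matrix.trace e')) t₁ y).re := by
    intro t₁ y
    obtain ⟨ρ, U, hρ, -⟩ := frames s N₁ l e' he' t₁ n hnN₁ (Nat.le_of_lt_succ t₁.2)
    have h3 := hρ y
    have h4 := congrArg Complex.re h3
    rw [Complex.natCast_re, ← Complex.ofReal_natCast, Complex.re_ofReal_mul] at h4
    have h5 : (0 : ℝ) < N s n t₁ := by exact_mod_cast N_pos s n t₁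
    have h6 : (N s n t₁ : ℝ) * (nt (trans (φ s) N₁ n (Matrix.trace e')) t₁ y).re = ρ := h4
    by_contra hlt
    push Not at hlt
    have h7 := mul_neg_of_pos_of_neg h5 hlt
    rw [h6] at h7
    exact absurd h7 (not_lt.2 (Nat.cast_nonneg _))
  have h3 := hmono s L j h τ₀ n (((1 / 2 : ℝ) : ℂ) • eC s (ft hnt)) (trans (φ s) N₁ n (Matrix.trace e')) (by
    intro t₁ y
    rw [nt_eC]
    by_cases h0 : t₁ = ft hnt
    · subst h0
      rw [if_pos rfl, Complex.ofReal_re]
      exact h1 y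
    · rw [if_neg h0, Complex.zero_re]
      exact h2 t₁ y)
  rw [comp_trans j h.comp hnN₁, map_smul, map_smul, smul_eq_mul, Complex.re_ofReal_mul] at h3
  have h4 := hτ n hnt
  linarith

end Run7.h277.AH.LOW
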