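import Pool.Agent.Run7.h277.AH.OBA2

/-!
# MP_501a10_an (project of helper745), piece OBA: the obstruction
-/

set_option autoImplicit false
set_option linter.unusedSectionVars false

noncomputable section

namespace Run7.h277.AH

open Filter Topology Matrix Pool.Agent.H188R3 Pool.Agent.TH249
open Run7.h745 Run7.h745.AH
open scoped ComplexOrder

/-- evaluation at a point of a component -/
def evt (s : ℕ → Bool) {n t : ℕ} (ht : t ≤ n) (y : X n t) : A s n →⋆ₐ[ℂ] MA (Fin (N s n t)) ℂ where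
  toFun a := (a (ft ht) : C(X n t, MA (Fin (N s n t)) ℂ)) y
  map_one' := rfl
  map_mul' _ _ := rfl
  map_zero' := rfl
  map_add' _ _ := rfl
  commutes' _ := rfl
  map_star' _ := rfl

/-- application to a vector -/
def ap {M : ℕ} (x : MA (Fin M) ℂ) (c : Fin M → ℂ) : Fin M → ℂ := fun P => ∑ a, x.en P a * c a

lemma ap_mul {M : ℕ} (x x' : MA (Fin M) ℂ) (c : Fin M → ℂ) : ap (x * x') c = ap x (ap x' c) := by
  funext P
  unfold ap
  simp only [MA.en_mul, Finset.sum_mul, Finset.mul_sum]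
  rw [Finset.sum_comm]
  exact Finset.sum_congr rfl fun a _ => Finset.sum_congr rfl fun b _ => by ring

lemma ap_sum {M : ℕ} {ι : Type} (S : Finset ι) (x : ι → MA (Fin M) ℂ) (c : Fin M → ℂ) :
    ap (∑ i ∈ S, x i) c = ∑ i ∈ S, ap (x i) c := by
  funext P
  rw [Finset.sum_apply]
  unfold ap
  simp only [MA.en_sum, Finset.sum_mul]
  rw [Finset.sum_comm]

lemma ap_add {M : ℕ} (x x' : MA (Fin M) ℂ) (c : Fin M → ℂ) : ap (x + x') c = ap x c + ap x' c := by
  funext P
  show ∑ a, (x.en P a + x'.en P a) * c a = ∑ a, x.en P a * c a + ∑ a, x'.en P a * c a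
  rw [← Finset.sum_add_distrib]
  exact Finset.sum_congr rfl fun a _ => add_mul _ _ _

lemma ap_vec_sum {M : ℕ} {ι : Type} (S : Finset ι) (x : MA (Fin M) ℂ) (c : ι → Fin M → ℂ) :
    ap x (∑ i ∈ S, c i) = ∑ i ∈ S, ap x (c i) := by
  funext P
  rw [Finset.sum_apply]
  unfold ap
  simp only [Finset.sum_apply, Finset.mul_sum]
  rw [Finset.sum_comm]

lemma ap_zero {M : ℕ} (x : MA (Fin M) ℂ) : ap x 0 = 0 := by
  funext P
  unfold ap
  exact Finset.sum_eq_zero fun a _ => mul_zero _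

lemma ap_one {M : ℕ} (c : Fin M → ℂ) : ap 1 c = c := by
  funext P
  unfold ap
  simp [MA.en_one]

lemma ap_inj {M : ℕ} [Nonempty (Fin M)] (x : MA (Fin M) ℂ) (hx : ‖1 - x‖ < 1) (c : Fin M → ℂ)
    (h : ap x c = 0) : c = 0 := by
  obtain ⟨u, hu⟩ : IsUnit x := by
    have h1 := (Units.oneSub (1 - x) hx).isUnit
    rwa [Units.val_oneSub, sub_sub_cancel] at h1
  have h2 : ap ((↑(u⁻¹) : MA (Fin M) ℂ) * x) c = 0 := by rw [ap_mul, h, ap_zero]
  rwa [← hu, Units.inv_mul, ap_one] at h2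

/-- the quadratic form of the block matrix -/
def QF {B : Type} [CStarAlgebra B] {R : Type} [Fintype R] {l : ℕ} (b : R → R → B) (e : Fin l → Fin l → B)
    (w : R ⊕ Fin l → B) : B :=
  (∑ r, star (w (Sum.inl r)) * ∑ r', b r r' * w (Sum.inl r')) +
    ∑ i, star (w (Sum.inr i)) * ∑ i', e i i' * w (Sum.inr i')

lemma QF_map {B C : Type} [CStarAlgebra B] [CStarAlgebra C] (g : B →⋆ₐ[ℂ] C) {R : Type} [Fintype R] {l : ℕ}
    (b : R → R → B) (e : Fin l → Fin l → B) (w : R ⊕ Fin l → B) :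
    g (QF b e w) = QF (fun r r' => g (b r r')) (fun i i' => g (e i i')) (fun k => g (w k)) := by
  unfold QF
  simp only [map_add, map_sum, map_mul, map_star]

lemma continuous_QF {B : Type} [CStarAlgebra B] {R : Type} [Fintype R] {l : ℕ} (b : R → R → B)
    (e : Fin l → Fin l → B) : Continuous (QF b e) := by
  unfold QF
  refine Continuous.add ?_ ?_
  · refine continuous_finsetSum _ fun r _ => Continuous.mul (continuous_star.comp (continuous_apply _)) ?_
    exact continuous_finsetSum _ fun r' _ => continuous_const.mul (continuous_apply _)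
  · refine continuous_finsetSum _ fun r _ => Continuous.mul (continuous_star.comp (continuous_apply _)) ?_
    exact continuous_finsetSum _ fun r' _ => continuous_const.mul (continuous_apply _)

lemma QF_matrix {B : Type} [CStarAlgebra B] {R : Type} [Fintype R] {l : ℕ} (b : Matrix R R B)
    (e : Matrix (Fin l) (Fin l) B) (v : Matrix (R ⊕ Fin l) (Fin 1) B) :
    (vᴴ * Matrix.fromBlocks b 0 0 e * v) 0 0 = QF b e (fun k => v k 0) := by
  rw [Matrix.mul_assoc, Matrix.mul_apply, Fintype.sum_sum_type]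
  unfold QF
  simp only [Matrix.mul_apply, Fintype.sum_sum_type, Matrix.conjTranspose_apply, Matrix.fromBlocks_apply₁₁,
    Matrix.fromBlocks_apply₁₂, Matrix.fromBlocks_apply₂₁, Matrix.fromBlocks_apply₂₂, Matrix.zero_apply,
    zero_mul, Finset.sum_const_zero, add_zero, zero_add]

lemma approx (s : ℕ → Bool) (L : Type) [CStarAlgebra L] (j : ∀ n, A s n →⋆ₐ[ℂ] L) (h : IsLim (φ s) j)
    (t n₀ : ℕ) (ht : t ≤ n₀) (n₂ l : ℕ) (e : Matrix (Fin l) (Fin l) (A s n₂))
    (v : Matrix (Nb (mm t) ⊕ Fin l) (Fin 1) L)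
    (hv : vᴴ * Matrix.fromBlocks ((Bt s n₀ t ht).map (j n₀)) 0 0 (e.map (j n₂)) * v = 1) :
    ∃ n₁, n₀ ≤ n₁ ∧ n₂ ≤ n₁ ∧ ∀ n, n₁ ≤ n → ∃ x : (Nb (mm t) ⊕ Fin l) → A s n,
      ‖1 - QF (fun r r' => trans (φ s) n₀ n (Bt s n₀ t ht r r')) (fun i i' => trans (φ s) n₂ n (e i i')) x‖ < 1 := by
  have h1 := congrFun (congrFun hv 0) 0
  rw [QF_matrix] at h1
  have h2 : QF (fun r r' => j n₀ (Bt s n₀ t ht r r')) (fun i i' => j n₂ (e i i')) (fun k => v k 0) = 1 := h1
  obtain ⟨δ, hδ, h3⟩ := Metric.continuous_iff.1 (continuous_QF (fun r r' => j n₀ (Bt s n₀ t ht r r'))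
    (fun i i' => j n₂ (e i i'))) (fun k => v k 0) 1 one_pos
  obtain ⟨N₁, hN₁⟩ := h.approx_finset (Finset.univ : Finset (Nb (mm t) ⊕ Fin l)) (fun k => v k 0) (half_pos hδ)
  refine ⟨max N₁ (max n₀ n₂), (le_max_left _ _).trans (le_max_right _ _),
    (le_max_right _ _).trans (le_max_right _ _), fun n hn => ?_⟩
  have hn1 : N₁ ≤ n := (le_max_left _ _).trans hn
  have hn2 : n₀ ≤ n := (le_max_left _ _).trans ((le_max_right _ _).trans hn)
  have hn3 : n₂ ≤ n := (le_max_right _ _).trans ((le_max_right _ _).trans hn)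
  obtain ⟨x, hx⟩ := hN₁ n hn1
  refine ⟨x, ?_⟩
  rw [← norm_map_inj (j n) (h.inj n), map_sub, map_one, QF_map]
  have h4 : (fun r r' => j n (trans (φ s) n₀ n (Bt s n₀ t ht r r'))) = fun r r' => j n₀ (Bt s n₀ t ht r r') := by
    funext r r'
    exact comp_trans j h.comp hn2 _
  have h5 : (fun i i' => j n (trans (φ s) n₂ n (e i i'))) = fun i i' => j n₂ (e i i') := by
    funext r r'
    exact comp_trans j h.comp hn3 _
  rw [h4, h5, ← h2, ← dist_eq_norm, dist_comm]
  refine h3 _ ?_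
  refine lt_of_le_of_lt ((dist_pi_le_iff (half_pos hδ).le).2 fun k => ?_) (half_lt_self hδ)
  rw [dist_comm, dist_eq_norm]
  exact (hx k (Finset.mem_univ k)).le

lemma sum3 {α β γ : Type} [Fintype α] [Fintype β] [Fintype γ] (cv : α → ℂ) (u : β → γ → ℂ) (X : β → γ → α → ℂ) :
    ∑ j, ∑ P, u j P * (∑ a, cv a * X j P a) = ∑ a, cv a * ∑ j, ∑ P, u j P * X j P a := by
  simp only [Finset.mul_sum]
  calc ∑ j, ∑ P, ∑ a, u j P * (cv a * X j P a) = ∑ j, ∑ a, ∑ P, u j P * (cv a * X j P a) :=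
        Finset.sum_congr rfl fun j _ => Finset.sum_comm
    _ = ∑ a, ∑ j, ∑ P, u j P * (cv a * X j P a) := Finset.sum_comm
    _ = _ := Finset.sum_congr rfl fun a _ => Finset.sum_congr rfl fun j _ =>
        Finset.sum_congr rfl fun P _ => by ring

lemma count (s : ℕ → Bool) (t n₀ : ℕ) (ht : t ≤ n₀) (n₂ l : ℕ) (e : Matrix (Fin l) (Fin l) (A s n₂))
    (he : IsPrj e) (n : ℕ) (hn0 : n₀ ≤ n) (hn2 : n₂ ≤ n) (x : (Nb (mm t) ⊕ Fin l) → A s n)
    (hx : ‖1 - QF (fun r r' => trans (φ s) n₀ n (Bt s n₀ t ht r r')) (fun i i' => trans (φ s) n₂ n (e i i')) x‖ < 1) :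
    ∃ ρ Lc : ℕ, (∀ y : X n t, (N s n t : ℂ) *
        nt (trans (φ s) n₂ n (Matrix.trace e)) (ft (ht.trans hn0)) y = ρ) ∧
      Lc * f n₀ + f n * N s n₀ t = N s n t * f n₀ ∧ N s n t ≤ Fintype.card (Nb (mm t)) * Lc + ρ := by
  classical
  have htn : t ≤ n := ht.trans hn0
  obtain ⟨ρ, U, hU1, hU2⟩ := frames s n₂ l e he t n hn2 htn
  obtain ⟨fp, Lt, hcard, hoff, hfree, hrest⟩ := later s n₀ t ht n hn0
  refine ⟨ρ, Lt.card, hU1, hcard, ?_⟩
  by_contra hlt
  push Not at hlt
  let FF : Finset ℕ := Finset.range (f n)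
  let yy : (FF → QS true) → X n t := fun q' i => (q' ⟨i.1, Finset.mem_range.2 i.2⟩).1 (mm t)
  have hyy : Continuous yy := by
    refine continuous_pi fun i => ?_
    exact (continuous_apply (mm t)).comp (continuous_subtype_val.comp (continuous_apply _))
  let z0N : Fin (N s n t) := ⟨0, N_pos s n t⟩
  let aa : ℕ → Fin (N s n t) := fun a => if h : a < N s n t then ⟨a, h⟩ else z0N
  let xe : (Nb (mm t) ⊕ Fin l) → Fin (N s n t) → Fin (N s n t) → X n t → ℂ := fun k P a y =>
    (evt s htn y (x k)).en P a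
  have hxe : ∀ k P a, Continuous (xe k P a) := fun k P a =>
    (continuous_en P a).comp (x k (ft htn) : C(X n t, MA (Fin (N s n t)) ℂ)).continuous
  let I := (Nb (mm t) × Fin (N s n t)) ⊕ Fin ρ
  let G : I → ℕ → (FF → QS true) → ℂ := fun w a q' => match w with
    | Sum.inl (r, P) => xe (Sum.inl r) P (aa a) (yy q')
    | Sum.inr i => ∑ j, ∑ P, U i j P (yy q') * xe (Sum.inr j) P (aa a) (yy q')
  have hG : ∀ w a, Continuous (G w a) := by
    intro w a
    rcases w with ⟨r, P⟩ | i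
    · exact (hxe _ _ _).comp hyy
    · refine continuous_finsetSum _ fun j _ => continuous_finsetSum _ fun P _ => ?_
      exact ((U i j P).continuous.comp hyy).mul ((hxe _ _ _).comp hyy)
  let J : ℕ → Fin (2 * (mm t + 1) + 1) → Fin (mm t + 1) → I := fun i b p =>
    if h : i < f n then Sum.inl (Sum.inl (b, p), fp ⟨i, h⟩) else Sum.inl (Sum.inl (b, p), z0N)
  let EE : Finset I := ((Finset.univ : Finset (Nb (mm t))) ×ˢ Lt).disjSum Finset.univ
  have hEE : EE.card < N s n t := by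
    show (((Finset.univ : Finset (Nb (mm t))) ×ˢ Lt).disjSum (Finset.univ : Finset (Fin ρ))).card < _
    rw [Finset.card_disjSum, Finset.card_product, Finset.card_univ, Finset.card_univ, Fintype.card_fin]
    exact hlt
  obtain ⟨ζ, c, hζ, ⟨a₀, ha₀, hca₀⟩, hc1, hc2⟩ := OB.bu (m := mm t) (s := true) (Or.inl rfl) FF (N s n t) EE hEE
    G hG J
  set y : X n t := yy (OB.cont (Or.inl rfl) FF ζ) with hy
  let cv : Fin (N s n t) → ℂ := fun a => c a
  have hsum : ∀ g : Fin (N s n t) → ℂ, ∑ a ∈ Finset.range (N s n t), c a * g (aa a) = ∑ a, cv a * g a := by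
    intro g
    rw [Finset.sum_range]
    refine Finset.sum_congr rfl fun a _ => ?_
    have : aa (a : ℕ) = a := by
      show (if h : (a : ℕ) < N s n t then (⟨a, h⟩ : Fin (N s n t)) else z0N) = a
      rw [dif_pos a.2]
    rw [this]
  let Y : (Nb (mm t) ⊕ Fin l) → Fin (N s n t) → ℂ := fun k => ap (evt s htn y (x k)) cv
  have hY : ∀ k P, Y k P = ∑ a, cv a * xe k P a y := by
    intro k P
    exact Finset.sum_congr rfl fun a _ => mul_comm _ _
  have h1 : ∀ r, ∀ P ∈ Lt, Y (Sum.inl r) P = 0 := by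
    intro r P hP
    have h2 := hc1 (Sum.inl (r, P)) (Finset.inl_mem_disjSum.2 (Finset.mem_product.2 ⟨Finset.mem_univ _, hP⟩))
    rw [hY, ← hsum]
    exact h2
  have h2 : ∀ i, ∑ j, ∑ P, U i j P y * Y (Sum.inr j) P = 0 := by
    intro i
    have h3 := hc1 (Sum.inr i) (Finset.inr_mem_disjSum.2 (Finset.mem_univ _))
    have h4 := hsum (fun a => ∑ j, ∑ P, U i j P y * xe (Sum.inr j) P a y)
    have h5 : ∑ a, cv a * ∑ j, ∑ P, U i j P y * xe (Sum.inr j) P a y = 0 := by
      rw [← h4]; exact h3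
    rw [← h5, ← sum3]
    exact Finset.sum_congr rfl fun j _ => Finset.sum_congr rfl fun P _ => by rw [hY]
  have h3 : ∀ (i : Fin (f n)) (p : Fin (mm t + 1)),
      ∑ b : Fin (2 * (mm t + 1) + 1), (ζ i b : ℂ) * Y (Sum.inl (Sum.inl (b, p))) (fp i) = 0 := by
    intro i p
    have h4 := hc2 i (Finset.mem_range.2 i.2) p
    rw [← h4]
    refine Finset.sum_congr rfl fun b _ => ?_
    congr 1
    rw [hY, ← hsum]
    refine Finset.sum_congr rfl fun a _ => ?_
    have h5 : J i b p = Sum.inl (Sum.inl (b, p), fp i) := by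
      show (if h : (i : ℕ) < f n then _ else _) = _
      rw [dif_pos i.2]
    rw [h5]
  have h4 : ∀ r, ∑ r', ap (evt s htn y (trans (φ s) n₀ n (Bt s n₀ t ht r r'))) (Y (Sum.inl r')) = 0 := by
    intro r
    funext P
    rw [Finset.sum_apply]
    show ∑ r', ∑ P', (evt s htn y (trans (φ s) n₀ n (Bt s n₀ t ht r r'))).en P P' * Y (Sum.inl r') P' = 0
    rw [Finset.sum_comm]
    refine Finset.sum_eq_zero fun P' _ => ?_
    by_cases hP' : P' ∈ Lt
    · exact Finset.sum_eq_zero fun r' _ => by rw [h1 r' P' hP', mul_zero]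
    · by_cases hPP : P = P'
      · subst hPP
        by_cases hex : ∃ i, fp i = P
        · obtain ⟨i, rfl⟩ := hex
          have h5 := bC_kill (mm t) (y i) (ζ i) (hζ i) (fun a b => by
            show (if mm t = mm t then ζ i a * ζ i b / OB.S2 (mm t) (ζ i) else 0) = _
            rw [if_pos rfl]) (fun r' => Y (Sum.inl r') (fp i)) (h3 i) r
          rw [← h5]
          refine Finset.sum_congr rfl fun r' _ => ?_
          congr 1
          exact hfree r r' y i
        · push Not at hex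
          refine Finset.sum_eq_zero fun r' _ => ?_
          have h5 : (evt s htn y (trans (φ s) n₀ n (Bt s n₀ t ht r r'))).en P P = 0 := hrest r r' y P hP' hex
          rw [h5, zero_mul]
      · refine Finset.sum_eq_zero fun r' _ => ?_
        have h5 : (evt s htn y (trans (φ s) n₀ n (Bt s n₀ t ht r r'))).en P P' = 0 := hoff r r' y P P' hP' hPP
        rw [h5, zero_mul]
  have h5 : ∀ i, ∑ i', ap (evt s htn y (trans (φ s) n₂ n (e i i'))) (Y (Sum.inr i')) = 0 := by
    intro i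
    funext P
    rw [Finset.sum_apply]
    exact hU2 y (fun j' P' => Y (Sum.inr j') P') h2 i P
  have h6 : ap (evt s htn y (QF (fun r r' => trans (φ s) n₀ n (Bt s n₀ t ht r r'))
      (fun i i' => trans (φ s) n₂ n (e i i')) x)) cv = 0 := by
    rw [QF_map]
    unfold QF
    rw [ap_add, ap_sum, ap_sum]
    have h7 : ∀ r, ap (star (evt s htn y (x (Sum.inl r))) * ∑ r', evt s htn y (trans (φ s) n₀ n (Bt s n₀ t ht r r')) *
        evt s htn y (x (Sum.inl r'))) cv = 0 := by
      intro r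
      rw [ap_mul, ap_sum]
      simp only [ap_mul]
      have h8 := h4 r
      rw [show (∑ r', ap (evt s htn y (trans (φ s) n₀ n (Bt s n₀ t ht r r'))) (ap (evt s htn y (x (Sum.inl r'))) cv)) = 0
        from h8, ap_zero]
    have h9 : ∀ i, ap (star (evt s htn y (x (Sum.inr i))) * ∑ i', evt s htn y (trans (φ s) n₂ n (e i i')) *
        evt s htn y (x (Sum.inr i'))) cv = 0 := by
      intro i
      rw [ap_mul, ap_sum]
      simp only [ap_mul]
      have h8 := h5 i
      rw [show (∑ i', ap (evt s htn y (trans (φ s) n₂ n (e i i'))) (ap (evt s htn y (x (Sum.inr i'))) cv)) = 0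
        from h8, ap_zero]
    rw [Finset.sum_eq_zero fun r _ => h7 r, Finset.sum_eq_zero fun i _ => h9 i, add_zero]
  have h7 : cv = 0 := by
    refine ap_inj _ ?_ cv h6
    have h8 := norm_map_le' (evt s htn y) (1 - QF (fun r r' => trans (φ s) n₀ n (Bt s n₀ t ht r r'))
      (fun i i' => trans (φ s) n₂ n (e i i')) x)
    rw [map_sub, map_one] at h8
    exact lt_of_le_of_lt h8 hx
  exact hca₀ (congrFun h7 ⟨a₀, ha₀⟩)

/-- **Piece OBA.** -/
theorem t_OBA : S_OBA := by
  intro s L _ j h t n₀ ht n₂ l e he v hv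
  obtain ⟨n₁, h1, h2, h3⟩ := approx s L j h t n₀ ht n₂ l e v hv
  refine ⟨n₁, fun n hn hn1 y => ?_⟩
  obtain ⟨x, hx⟩ := h3 n hn1
  obtain ⟨ρ, Lc, hρ, hL, hN⟩ := count s t n₀ ht n₂ l e he n (h1.trans hn1) (h2.trans hn1) x hx
  have h4 := hρ y
  have hN0 : (0 : ℝ) < N s n t := by exact_mod_cast N_pos s n t
  have h5 : (N s n t : ℝ) * (nt (trans (φ s) n₂ n (Matrix.trace e)) (ft hn) y).re = ρ := by
    have h6 := congrArg Complex.re h4
    rw [Complex.natCast_re, ← Complex.ofReal_natCast, Complex.re_ofReal_mul] at h6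
    exact h6
  have hf : (0 : ℝ) < f n₀ := by exact_mod_cast f_pos n₀
  have hk : (0 : ℝ) < k n := by exact_mod_cast k_pos n
  have hk0 : (0 : ℝ) < k n₀ := by exact_mod_cast k_pos n₀
  have ha : (0 : ℝ) < amp s t := by exact_mod_cast amp_pos s t
  have hNe : (N s n t : ℝ) = amp s t * k n := by unfold N; push_cast; rfl
  have hNe0 : (N s n₀ t : ℝ) = amp s t * k n₀ := by unfold N; push_cast; rfl
  have hL' : (Lc : ℝ) * f n₀ + f n * N s n₀ t = N s n t * f n₀ := by exact_mod_cast hL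
  have hN' : (N s n t : ℝ) ≤ Fintype.card (Nb (mm t)) * Lc + ρ := by exact_mod_cast hN
  have h6 : (Lc : ℝ) = N s n t * (1 - d n / d n₀) := by
    have h7 : d n / d n₀ = (f n : ℝ) * k n₀ / (k n * f n₀) := by
      unfold d
      field_simp
    rw [h7]
    have h8 : (Lc : ℝ) = (N s n t * f n₀ - f n * N s n₀ t) / f n₀ := by
      rw [eq_div_iff hf.ne']
      linarith
    rw [h8, hNe, hNe0]
    field_simp
  rw [h6, ← h5] at hN'
  have h9 : (N s n t : ℝ) * 1 ≤ N s n t * ((nt (trans (φ s) n₂ n (Matrix.trace e)) (ft hn) y).re +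
      Fintype.card (Nb (mm t)) * (1 - d n / d n₀)) := by
    calc (N s n t : ℝ) * 1 = N s n t := mul_one _
      _ ≤ _ := hN'
      _ = _ := by ring
  exact le_of_mul_le_mul_left h9 hN0

end Run7.h277.AH
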