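import Pool.Agent.Run7.h745.AH.Iface
import Pool.Agent.Run7.h745.OBa
import Pool.Agent.Run7.h745.Prt

/-!
# MP_501a10_an (project of helper745), piece OBA, part 1: the obstruction at later levels, frames
-/

set_option autoImplicit false
set_option linter.unusedSectionVars false

noncomputable section

namespace Run7.h277.AH

open Filter Topology Matrix Pool.Agent.H188R3 Pool.Agent.TH249
open Run7.h745 Run7.h745.AH
open scoped ComplexOrder

/-! ### The obstruction at later levels -/

lemma f_le_k (n : ℕ) : f n ≤ k n := by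
  induction n with
  | zero => exact le_rfl
  | succ n ih =>
    rw [f_succ, k_succ]
    exact Nat.mul_le_mul (Nat.le_add_right _ _) ih

lemma f_le_N (s : ℕ → Bool) (n t : ℕ) : f n ≤ N s n t := by
  refine (f_le_k n).trans ?_
  unfold N
  exact Nat.le_mul_of_pos_left _ (amp_pos s t)

lemma Bt_apply (s : ℕ → Bool) (n₀ t : ℕ) (ht : t ≤ n₀) (r r' : Nb (mm t)) (y : X n₀ t) :
    (Bt s n₀ t ht r r') (ft ht) y = gC s n₀ t r r' y := by
  have h1 : (Bt s n₀ t ht r r') (ft ht) =
      (Pi.single (ft ht) (gC s n₀ t r r') : A s n₀) (ft ht) +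
        (1 - (eC s (ft ht) : A s n₀) (ft ht)) * ((if r = r' then 1 else 0 : A s n₀) (ft ht)) := rfl
  have h2 : (Pi.single (ft ht) (gC s n₀ t r r') : A s n₀) (ft ht) = gC s n₀ t r r' := Pi.single_eq_same _ _
  have h3 : (eC s (ft ht) : A s n₀) (ft ht) = 1 := Pi.single_eq_same _ _
  rw [h1, h2, h3, sub_self, zero_mul, add_zero]
  rfl

lemma arith (c M M' M₀ F F₀ Q : ℕ) (h2 : Q * (M' - c) ≤ M) (h3 : c ≤ M')
    (hcard : c * F₀ + F * M₀ = M' * F₀) : (M - Q * (M' - c)) * F₀ + Q * F * M₀ = M * F₀ := by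
  obtain ⟨a, ha⟩ := Nat.exists_eq_add_of_le h2
  obtain ⟨b, hb⟩ := Nat.exists_eq_add_of_le h3
  rw [ha, Nat.add_sub_cancel_left]
  have h4 : M' - c = b := by omega
  rw [h4]
  rw [hb] at hcard
  have h5 : F * M₀ = b * F₀ := by
    have : c * F₀ + F * M₀ = c * F₀ + b * F₀ := by rw [hcard]; ring
    omega
  calc a * F₀ + Q * F * M₀ = a * F₀ + Q * (F * M₀) := by ring
    _ = (Q * b + a) * F₀ := by rw [h5]; ring

/-- the free positions and the late positions -/
lemma later (s : ℕ → Bool) (n₀ t : ℕ) (ht : t ≤ n₀) : ∀ n (hn : n₀ ≤ n),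
    ∃ (fp : Fin (f n) → Fin (N s n t)) (Lt : Finset (Fin (N s n t))),
      Lt.card * f n₀ + f n * N s n₀ t = N s n t * f n₀ ∧
      (∀ (r r' : Nb (mm t)) (y : X n t) (P P' : Fin (N s n t)), P' ∉ Lt → P ≠ P' →
        (trans (φ s) n₀ n (Bt s n₀ t ht r r') (ft (ht.trans hn)) y).en P P' = 0) ∧
      (∀ (r r' : Nb (mm t)) (y : X n t) (i : Fin (f n)),
        (trans (φ s) n₀ n (Bt s n₀ t ht r r') (ft (ht.trans hn)) y).en (fp i) (fp i) = bC (mm t) (y i) r r') ∧
      (∀ (r r' : Nb (mm t)) (y : X n t) (P : Fin (N s n t)), P ∉ Lt → (∀ i, fp i ≠ P) →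
        (trans (φ s) n₀ n (Bt s n₀ t ht r r') (ft (ht.trans hn)) y).en P P = 0) := by
  classical
  intro n hn
  induction n, hn using Nat.le_induction with
  | base =>
    have hg : ∀ (r r' : Nb (mm t)) (y : X n₀ t) (P P' : Fin (N s n₀ t)),
        (trans (φ s) n₀ n₀ (Bt s n₀ t ht r r') (ft ht) y).en P P' =
          if P = P' then (if h : (P : ℕ) < f n₀ then bC (mm t) (y ⟨P, h⟩) r r' else 0) else 0 := by
      intro r r' y P P'
      rw [trans_self, Bt_apply]
      rfl
    refine ⟨Fin.castLE (f_le_N s n₀ t), ∅, by rw [Finset.card_empty]; ring, ?_, ?_, ?_⟩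
    · intro r r' y P P' _ hPP
      rw [hg, if_neg hPP]
    · intro r r' y i
      rw [hg, if_pos rfl, dif_pos (show ((Fin.castLE (f_le_N s n₀ t) i : Fin (N s n₀ t)) : ℕ) < f n₀ from i.2)]
      rfl
    · intro r r' y P _ hP
      rw [hg, if_pos rfl, dif_neg]
      intro h
      exact hP ⟨P, h⟩ (Fin.ext rfl)
  | succ n hn ih =>
    obtain ⟨fp, Lt, hcard, hoff, hfree, hrest⟩ := ih
    have h : t ≤ n := ht.trans hn
    let σ : Fin (q n) → Slot s n t := fun j => Sum.inl (⟨h⟩, j)
    let E : (Fin (q n) × Fin (N s n t)) → Fin (N s (n + 1) t) := fun p =>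
      (pe s n t).symm ⟨σ p.1, p.2⟩
    have hE : Function.Injective E := by
      intro p p' hpp
      have h1 := (pe s n t).symm.injective hpp
      have h2 : σ p.1 = σ p'.1 := congrArg Sigma.fst h1
      have h3 : p.1 = p'.1 := by
        have h4 := Sum.inl.inj h2
        exact (Prod.mk.inj h4).2
      obtain ⟨p1, p2⟩ := p
      obtain ⟨p1', p2'⟩ := p'
      simp only at h3
      subst h3
      have h5 := eq_of_heq (Sigma.mk.inj h1).2
      simp only at h5
      rw [h5]
    have key : ∀ (x : A s n) (y : X (n + 1) t) (h' : t ≤ n + 1) (j : Fin (q n)) (P P' : Fin (N s n t)),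
        (φ s n x (ft h') y).en (E (j, P)) (E (j, P')) = (x (ft h) (blk n t j y)).en P P' := by
      intro x y h' j P P'
      exact bd_same (pe s n t) (fun σ => x (src s n t σ) (lam s n t σ y)) (σ j) P P'
    have key2 : ∀ (x : A s n) (y : X (n + 1) t) (h' : t ≤ n + 1) (P : Fin (N s (n + 1) t)) (j : Fin (q n))
        (P' : Fin (N s n t)), (∀ Q, P ≠ E (j, Q)) → (φ s n x (ft h') y).en P (E (j, P')) = 0 := by
      intro x y h' P j P' hP
      refine bd_ne (pe s n t) (fun σ => x (src s n t σ) (lam s n t σ y)) P (E (j, P')) ?_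
      intro h1
      obtain ⟨⟨τ, Q⟩, rfl⟩ := (pe s n t).symm.surjective P
      have h2 : (pe s n t (E (j, P'))).1 = σ j := by
        show (pe s n t ((pe s n t).symm ⟨σ j, P'⟩)).1 = σ j
        rw [Equiv.apply_symm_apply]
      rw [h2, Equiv.apply_symm_apply] at h1
      simp only at h1
      subst h1
      exact hP Q rfl
    let Lt' : Finset (Fin (N s (n + 1) t)) := (Finset.image E (Finset.univ ×ˢ Ltᶜ))ᶜ
    have hLt' : ∀ P, P ∉ Lt' → ∃ j P'', P'' ∉ Lt ∧ P = E (j, P'') := by
      intro P hP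
      rw [Finset.mem_compl, not_not, Finset.mem_image] at hP
      obtain ⟨⟨j, P''⟩, h1, h2⟩ := hP
      rw [Finset.mem_product, Finset.mem_compl] at h1
      exact ⟨j, P'', h1.2, h2.symm⟩
    refine ⟨fun c => E ((finProdFinEquiv.symm c).1, fp (finProdFinEquiv.symm c).2), Lt', ?_, ?_, ?_, ?_⟩
    · have h1 : Lt'.card = N s (n + 1) t - q n * (N s n t - Lt.card) := by
        show ((Finset.image E (Finset.univ ×ˢ Ltᶜ))ᶜ).card = _
        rw [Finset.card_compl, Finset.card_image_of_injective _ hE, Finset.card_product, Finset.card_univ,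
          Finset.card_compl, Fintype.card_fin, Fintype.card_fin, Fintype.card_fin]
      have h2 : q n * (N s n t - Lt.card) ≤ N s (n + 1) t := by
        calc q n * (N s n t - Lt.card) ≤ q n * N s n t := Nat.mul_le_mul_left _ (Nat.sub_le _ _)
          _ ≤ N s (n + 1) t := by
            unfold N
            rw [k_succ]
            calc q n * (amp s t * k n) = amp s t * (q n * k n) := by ring
              _ ≤ amp s t * ((q n + 4 * (n + 1) ^ 3) * k n) :=
                Nat.mul_le_mul_left _ (Nat.mul_le_mul_right _ (Nat.le_add_right _ _))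
      have h3 : Lt.card ≤ N s n t := by
        have := Finset.card_le_univ Lt
        rwa [Fintype.card_fin] at this
      rw [h1, f_succ]
      exact arith _ _ _ _ _ _ _ h2 h3 hcard
    · intro r r' y P P' hP' hPP
      obtain ⟨j, P'', hP'', rfl⟩ := hLt' P' hP'
      rw [trans_succ (φ s) hn]
      by_cases hex : ∃ Q, P = E (j, Q)
      · obtain ⟨Q, rfl⟩ := hex
        rw [key]
        exact hoff r r' _ Q P'' hP'' (fun h0 => hPP (by rw [h0]))
      · push Not at hex
        exact key2 _ _ _ _ _ _ hex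
    · intro r r' y c
      rw [trans_succ (φ s) hn, key, hfree]
      congr 1
      show y (finProdFinEquiv ((finProdFinEquiv.symm c).1, (finProdFinEquiv.symm c).2)) = y c
      rw [Prod.mk.eta, Equiv.apply_symm_apply]
    · intro r r' y P hP hPf
      obtain ⟨j, P'', hP'', rfl⟩ := hLt' P hP
      rw [trans_succ (φ s) hn, key]
      refine hrest r r' _ P'' hP'' fun i hi => ?_
      refine hPf (finProdFinEquiv (j, i)) ?_
      simp only [Equiv.symm_apply_apply]
      rw [hi]

/-! ### The letters -/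

/-- `bC` vanishes on the vectors orthogonal to the vector of the letter -/
lemma bC_kill (m : ℕ) (z : coneSet (m + 1)) (ζ : ℕ → ℝ) (hζ : OB.S2 m ζ ≠ 0)
    (hz : ∀ a b, z.1 a b = ζ a * ζ b / OB.S2 m ζ)
    (Y : Nb m → ℂ) (hY : ∀ p, ∑ a : Fin (2 * (m + 1) + 1), (ζ a : ℂ) * Y (Sum.inl (a, p)) = 0)
    (r : Nb m) : ∑ r', bC m z r r' * Y r' = 0 := by
  have hzM : ∀ a b : Fin (2 * (m + 1) + 1), zC m z a b = (ζ a : ℂ) * ζ b / OB.S2 m ζ := by
    intro a b
    unfold zC
    rw [Matrix.of_apply, hz]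
    push_cast; rfl
  have hS : (OB.S2 m ζ : ℂ) = ∑ c : Fin (2 * (m + 1) + 1), (ζ c : ℂ) ^ 2 := by
    rw [OB.S2, Finset.sum_range]; push_cast; rfl
  have hS0 : (OB.S2 m ζ : ℂ) ≠ 0 := by exact_mod_cast hζ
  have htr : (zC m z).trace = 1 := by
    rw [Matrix.trace]
    simp only [Matrix.diag_apply, hzM]
    rw [← Finset.sum_div]
    rw [div_eq_one_iff_eq hS0, hS]
    exact Finset.sum_congr rfl fun a _ => by ring
  have hsq : ∀ a b, (zC m z * zC m z) a b = (ζ a : ℂ) * ζ b / OB.S2 m ζ := by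
    intro a b
    rw [Matrix.mul_apply]
    simp only [hzM]
    have h1 : ∀ c : Fin (2 * (m + 1) + 1), (ζ a : ℂ) * ζ c / OB.S2 m ζ * (ζ c * ζ b / OB.S2 m ζ) =
        (ζ a : ℂ) * ζ b / OB.S2 m ζ / OB.S2 m ζ * (ζ c : ℂ) ^ 2 := by
      intro c; ring
    simp only [h1]
    rw [← Finset.mul_sum, ← hS]
    field_simp
  rw [Fintype.sum_sum_type]
  rcases r with ⟨a, p⟩ | p
  · have h2 : ∀ p' : Fin (m + 1), bC m z (Sum.inl (a, p)) (Sum.inr p') = 0 := by
      intro p'
      simp [bC]
    simp only [h2, zero_mul, Finset.sum_const_zero, add_zero]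
    rw [Fintype.sum_prod_type]
    have h3 : ∀ a' p', bC m z (Sum.inl (a, p)) (Sum.inl (a', p')) * Y (Sum.inl (a', p')) =
        if p = p' then ((ζ a : ℂ) / OB.S2 m ζ) * ((ζ a' : ℂ) * Y (Sum.inl (a', p))) else 0 := by
      intro a' p'
      simp only [bC, Matrix.fromBlocks_apply₁₁, Matrix.blockDiagonal_apply]
      by_cases hp : p = p'
      · subst hp
        simp only [if_true, hsq]
        ring
      · simp only [hp, if_false]
        simp
    simp only [h3]
    rw [Finset.sum_comm, Finset.sum_eq_single p]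
    · simp only [if_true]
      rw [← Finset.mul_sum, hY p, mul_zero]
    · intro p' _ hp
      simp [Ne.symm hp]
    · intro h; exact absurd (Finset.mem_univ p) h
  · have h2 : ∀ ap, bC m z (Sum.inr p) (Sum.inl ap) = 0 := by
      intro ap
      simp [bC]
    have h3 : ∀ p', bC m z (Sum.inr p) (Sum.inr p') = 0 := by
      intro p'
      simp only [bC, Matrix.fromBlocks_apply₂₂, Matrix.diagonal_apply]
      by_cases hp : p = p'
      · simp [hp, htr]
      · simp [hp]
    simp only [h2, h3, zero_mul, Finset.sum_const_zero, add_zero]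

end Run7.h277.AH
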