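import Pool.Agent.Run7.h277.AH.OBA1

/-!
# MP_501a10_an (project of helper745), piece OBA, part 2: frames of projections
-/

set_option autoImplicit false
set_option linter.unusedSectionVars false

noncomputable section

namespace Run7.h277.AH

open Filter Topology Matrix Pool.Agent.H188R3 Pool.Agent.TH249
open Run7.h745 Run7.h745.AH
open scoped ComplexOrder

/-- scaling of letters -/
def scC (u : unitInterval) {m : ℕ} (z : coneSet m) : coneSet m :=
  ⟨fun i j => u.1 * z.1 i j, by
    obtain ⟨ζ, h1, h2⟩ := z.2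
    have ht := u.2.1
    refine ⟨fun i => √u.1 * ζ i, ?_, ?_⟩
    · have h3 : ∀ i, (√u.1 * ζ i) ^ 2 = u.1 * ζ i ^ 2 := by
        intro i; rw [mul_pow, Real.sq_sqrt ht]
      simp only [h3]
      rw [← Finset.mul_sum]
      have := u.2.2
      have h4 : 0 ≤ ∑ i, ζ i ^ 2 := Finset.sum_nonneg fun i _ => sq_nonneg _
      nlinarith
    · intro i j
      have h3 : √u.1 * √u.1 = u.1 := Real.mul_self_sqrt ht
      calc u.1 * z.1 i j = (√u.1 * √u.1) * (ζ i * ζ j) := by rw [h3, h2]
        _ = _ := by ring⟩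

lemma continuous_scC {m : ℕ} : Continuous fun p : unitInterval × coneSet m => scC p.1 p.2 := by
  refine Continuous.subtype_mk (continuous_pi fun i => continuous_pi fun j => ?_) _
  refine (continuous_subtype_val.comp continuous_fst).mul ?_
  exact (continuous_apply j).comp ((continuous_apply i).comp (continuous_subtype_val.comp continuous_snd))

instance contractibleX (n t : ℕ) : ContractibleSpace (X n t) := by
  rw [contractible_iff_id_nullhomotopic]
  refine ⟨fun _ => z0 t, ⟨⟨⟨fun p i => scC (unitInterval.symm p.1) (p.2 i), ?_⟩, ?_, ?_⟩⟩⟩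
  · refine continuous_pi fun i => ?_
    exact continuous_scC.comp ((unitInterval.continuous_symm.comp continuous_fst).prodMk
      ((continuous_apply i).comp continuous_snd))
  · intro w
    funext i
    refine Subtype.ext (funext fun a => funext fun b => ?_)
    show (unitInterval.symm 0 : unitInterval).1 * _ = _
    simp
  · intro w
    funext i
    refine Subtype.ext (funext fun a => funext fun b => ?_)
    show (unitInterval.symm 1 : unitInterval).1 * _ = (0 : ℝ)
    simp

lemma trans_zero' (s : ℕ → Bool) {n m : ℕ} (h : n ≤ m) : trans (φ s) n m (0 : A s n) = 0 := by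
  have := trans_algebraMap (φ s) h 0
  rwa [map_zero, map_zero] at this

lemma trans_sum (s : ℕ → Bool) {n m : ℕ} (h : n ≤ m) {ι : Type} (S : Finset ι) (g : ι → A s n) :
    trans (φ s) n m (∑ i ∈ S, g i) = ∑ i ∈ S, trans (φ s) n m (g i) := by
  classical
  induction S using Finset.induction_on with
  | empty => rw [Finset.sum_empty, Finset.sum_empty, trans_zero' s h]
  | insert a S ha ih => rw [Finset.sum_insert ha, Finset.sum_insert ha, trans_add (φ s) h, ih]

lemma continuous_en {I : Type} [Fintype I] [DecidableEq I] (P P' : I) :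
    Continuous fun x : MA I ℂ => x.en P P' :=
  (continuous_apply_apply P P' : Continuous fun x : I → I → ℂ => x P P')

lemma trace_diagProj (M r : ℕ) (hr : r ≤ M) : (diagProj M r).trace = (r : ℂ) := by
  unfold diagProj
  rw [Matrix.trace_diagonal, Finset.sum_ite, Finset.sum_const_zero, add_zero, Finset.sum_const, nsmul_eq_mul, mul_one]
  congr 1
  have h1 : (Finset.univ.filter fun i : Fin M => (i : ℕ) < r) = Finset.univ.map (Fin.castLEEmb hr) := by
    ext i
    simp only [Finset.mem_filter, Finset.mem_univ, true_and, Finset.mem_map, Fin.castLEEmb_apply]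
    constructor
    · intro h; exact ⟨⟨i, h⟩, Fin.ext rfl⟩
    · rintro ⟨j, rfl⟩; exact j.2
  rw [h1, Finset.card_map, Finset.card_univ, Fintype.card_fin]

/-- **Frames.** -/
lemma frames (s : ℕ → Bool) (n₂ l : ℕ) (e : Matrix (Fin l) (Fin l) (A s n₂)) (he : IsPrj e)
    (t n : ℕ) (hn : n₂ ≤ n) (ht : t ≤ n) :
    ∃ (ρ : ℕ) (U : Fin ρ → Fin l → Fin (N s n t) → C(X n t, ℂ)),
      (∀ y : X n t, (N s n t : ℂ) * nt (trans (φ s) n₂ n (Matrix.trace e)) (ft ht) y = ρ) ∧
      ∀ (y : X n t) (Y : Fin l → Fin (N s n t) → ℂ), (∀ i, ∑ j, ∑ P, U i j P y * Y j P = 0) →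
        ∀ (j : Fin l) (P : Fin (N s n t)),
          ∑ j', ∑ P' : Fin (N s n t), (trans (φ s) n₂ n (e j j') (ft ht) y).en P P' * Y j' P' = 0 := by
  classical
  let Ee : Fin l → Fin l → C(X n t, MA (Fin (N s n t)) ℂ) := fun j j' => trans (φ s) n₂ n (e j j') (ft ht)
  let fe : Fin l × Fin (N s n t) ≃ Fin (l * N s n t) := finProdFinEquiv
  let Gm : X n t → Matrix (Fin (l * N s n t)) (Fin (l * N s n t)) ℂ := fun y =>
    Matrix.of fun a b => (Ee (fe.symm a).1 (fe.symm b).1 y).en (fe.symm a).2 (fe.symm b).2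
  have hGc : Continuous Gm := by
    have h0 : ∀ a b, Continuous fun y => Gm y a b := fun a b =>
      (continuous_en (fe.symm a).2 (fe.symm b).2).comp (Ee (fe.symm a).1 (fe.symm b).1).continuous
    exact continuous_pi fun a => continuous_pi fun b => h0 a b
  let G : C(X n t, Mat (l * N s n t) ℂ) := ⟨fun y => Mat.of (Gm y), Mat.continuous_of.comp hGc⟩
  have hmul : ∀ (a b : Fin l), ∑ c, Ee a c * Ee c b = Ee a b := by
    intro a b
    have h1 : (e * e) a b = e a b := by rw [he.2]
    rw [Matrix.mul_apply] at h1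
    have h2 : trans (φ s) n₂ n (∑ c, e a c * e c b) = trans (φ s) n₂ n (e a b) :=
      congrArg (fun x => trans (φ s) n₂ n x) h1
    rw [trans_sum s hn] at h2
    have h3 := congrFun h2 (ft ht)
    rw [Finset.sum_apply] at h3
    refine Eq.trans ?_ h3
    refine Finset.sum_congr rfl fun c _ => ?_
    rw [trans_mul (φ s) hn]
    rfl
  have hstar : ∀ (a b : Fin l), star (Ee a b) = Ee b a := by
    intro a b
    have h1 : (eᴴ) b a = e b a := by rw [he.1]
    rw [Matrix.conjTranspose_apply] at h1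
    have h2 : trans (φ s) n₂ n (star (e a b)) = trans (φ s) n₂ n (e b a) :=
      congrArg (fun x => trans (φ s) n₂ n x) h1
    rw [trans_star (φ s) hn] at h2
    exact congrFun h2 (ft ht)
  have hGm2 : ∀ y, Gm y * Gm y = Gm y := by
    intro y
    ext a b
    rw [Matrix.mul_apply, ← Equiv.sum_comp fe, Fintype.sum_prod_type]
    show ∑ c, ∑ P, (Ee (fe.symm a).1 (fe.symm (fe (c, P))).1 y).en (fe.symm a).2 (fe.symm (fe (c, P))).2 *
      (Ee (fe.symm (fe (c, P))).1 (fe.symm b).1 y).en (fe.symm (fe (c, P))).2 (fe.symm b).2 = _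
    simp only [Equiv.symm_apply_apply]
    have h1 := congrArg (fun x : C(X n t, MA (Fin (N s n t)) ℂ) => (x y).en (fe.symm a).2 (fe.symm b).2)
      (hmul (fe.symm a).1 (fe.symm b).1)
    simp only [ContinuousMap.sum_apply, MA.en_sum, ContinuousMap.mul_apply, MA.en_mul] at h1
    exact h1
  have hGms : ∀ y, (Gm y)ᴴ = Gm y := by
    intro y
    ext a b
    rw [Matrix.conjTranspose_apply]
    have h1 := congrArg (fun x : C(X n t, MA (Fin (N s n t)) ℂ) => (x y).en (fe.symm a).2 (fe.symm b).2)
      (hstar (fe.symm b).1 (fe.symm a).1)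
    exact h1
  have hGp : ∀ y, IsStarProjection (G y) := by
    intro y
    refine ⟨?_, ?_⟩
    · show Mat.of (Gm y) * Mat.of (Gm y) = Mat.of (Gm y)
      rw [← map_mul, hGm2]
    · show star (Mat.of (Gm y)) = Mat.of (Gm y)
      rw [← map_star]
      congr 1
      exact hGms y
  obtain ⟨r, U, hr, hU1, hU2⟩ := prt3 (X n t) (l * N s n t) G hGp
  let V : X n t → Matrix (Fin (l * N s n t)) (Fin (l * N s n t)) ℂ := fun y => Mat.of.symm (U y)
  have hV1 : ∀ y, (V y)ᴴ * V y = Gm y := by
    intro y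
    have h1 : Mat.of.symm (star (U y) * U y) = Mat.of.symm (G y) := by rw [hU1]
    rw [map_mul, map_star] at h1
    exact h1
  have hV2 : ∀ y, V y * (V y)ᴴ = diagProj (l * N s n t) r := by
    intro y
    have h1 : Mat.of.symm (U y * star (U y)) = Mat.of.symm (Mat.of (diagProj (l * N s n t) r)) := by rw [hU2]
    rw [map_mul, map_star] at h1
    exact h1
  have hVc : Continuous V := Mat.continuous_of_symm.comp U.continuous
  have hrow : ∀ y (i : Fin (l * N s n t)), r ≤ (i : ℕ) → ∀ b, V y i b = 0 := by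
    intro y i hi b
    have h1 : (V y * (V y)ᴴ) i i = 0 := by
      rw [hV2]
      unfold diagProj
      rw [Matrix.diagonal_apply_eq, if_neg (by omega)]
    rw [Matrix.mul_apply] at h1
    have h2 : ∑ c, ((‖V y i c‖ ^ 2 : ℝ) : ℂ) = 0 := by
      rw [← h1]
      refine Finset.sum_congr rfl fun c _ => ?_
      rw [Matrix.conjTranspose_apply]
      have := Complex.mul_conj' (V y i c)
      rw [show star (V y i c) = (starRingEnd ℂ) (V y i c) from rfl, this]
      push_cast
      rfl
    have h3 : ∑ c, ‖V y i c‖ ^ 2 = 0 := by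
      have h4 : ((∑ c, ‖V y i c‖ ^ 2 : ℝ) : ℂ) = 0 := by push_cast; exact_mod_cast h2
      exact_mod_cast h4
    have h4 := (Finset.sum_eq_zero_iff_of_nonneg fun c _ => sq_nonneg _).1 h3 b (Finset.mem_univ b)
    exact norm_eq_zero.1 (pow_eq_zero_iff two_ne_zero |>.1 h4)
  refine ⟨r, fun i j P => ⟨fun y => V y (Fin.castLE hr i) (fe (j, P)),
    (continuous_apply_apply _ _).comp hVc⟩, ?_, ?_⟩
  · intro y
    have h1 : (Gm y).trace = r := by
      rw [← hV1, Matrix.trace_mul_comm, hV2, trace_diagProj _ _ hr]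
    rw [← h1]
    have hN : (N s n t : ℂ) ≠ 0 := by exact_mod_cast (N_pos s n t).ne'
    show (N s n t : ℂ) * ((∑ i : Fin (N s n t), ((trans (φ s) n₂ n (Matrix.trace e) (ft ht) :
      C(X n t, MA (Fin (N s n t)) ℂ)) y).en i i) / (Fintype.card (Fin (N s n t)) : ℂ)) = _
    rw [Fintype.card_fin, mul_div_cancel₀ _ hN]
    have h2 : (trans (φ s) n₂ n (Matrix.trace e) (ft ht) : C(X n t, MA (Fin (N s n t)) ℂ)) = ∑ j, Ee j j := by
      unfold Matrix.trace
      rw [trans_sum s hn, Finset.sum_apply]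
      rfl
    rw [h2]
    have h3 : (Gm y).trace = ∑ j, ∑ P, (Ee j j y).en P P := by
      unfold Matrix.trace
      rw [← Equiv.sum_comp fe, Fintype.sum_prod_type]
      refine Finset.sum_congr rfl fun j _ => Finset.sum_congr rfl fun P _ => ?_
      show (Ee (fe.symm (fe (j, P))).1 (fe.symm (fe (j, P))).1 y).en (fe.symm (fe (j, P))).2 (fe.symm (fe (j, P))).2 = _
      rw [Equiv.symm_apply_apply]
    rw [h3, Finset.sum_comm]
    refine Finset.sum_congr rfl fun P _ => ?_
    show ((∑ j, Ee j j : C(X n t, MA (Fin (N s n t)) ℂ)) y).en P P = _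
    rw [ContinuousMap.sum_apply, MA.en_sum]
  · intro y Y hY j P
    let Yv : Fin (l * N s n t) → ℂ := fun b => Y (fe.symm b).1 (fe.symm b).2
    have h1 : (V y) *ᵥ Yv = 0 := by
      funext i
      show ∑ b, V y i b * Yv b = 0
      by_cases hi : (i : ℕ) < r
      · rw [← Equiv.sum_comp fe, Fintype.sum_prod_type]
        have h2 := hY ⟨i, hi⟩
        have h3 : (Fin.castLE hr ⟨(i : ℕ), hi⟩ : Fin (l * N s n t)) = i := Fin.ext rfl
        refine Eq.trans ?_ h2
        refine Finset.sum_congr rfl fun j' _ => Finset.sum_congr rfl fun P' _ => ?_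
        show V y i (fe (j', P')) * Y (fe.symm (fe (j', P'))).1 (fe.symm (fe (j', P'))).2 =
          V y (Fin.castLE hr ⟨(i : ℕ), hi⟩) (fe (j', P')) * Y j' P'
        rw [h3, Equiv.symm_apply_apply]
      · refine Finset.sum_eq_zero fun b _ => ?_
        rw [hrow y i (by omega), zero_mul]
    have h2 : (Gm y) *ᵥ Yv = 0 := by
      rw [← hV1, ← Matrix.mulVec_mulVec, h1, Matrix.mulVec_zero]
    have h3 := congrFun h2 (fe (j, P))
    have h4 : ((Gm y) *ᵥ Yv) (fe (j, P)) = ∑ b, Gm y (fe (j, P)) b * Yv b := rfl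
    rw [h4, ← Equiv.sum_comp fe, Fintype.sum_prod_type] at h3
    refine Eq.trans ?_ h3
    refine Finset.sum_congr rfl fun j' _ => Finset.sum_congr rfl fun P' _ => ?_
    show _ = (Ee (fe.symm (fe (j, P))).1 (fe.symm (fe (j', P'))).1 y).en (fe.symm (fe (j, P))).2 (fe.symm (fe (j', P'))).2 *
      Y (fe.symm (fe (j', P'))).1 (fe.symm (fe (j', P'))).2
    rw [Equiv.symm_apply_apply, Equiv.symm_apply_apply]
    rfl

end Run7.h277.AH
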